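import Mathlib

/-!
Directed outerplanar graphs can need exponential area in every straight-line upward planar grid
drawing (outerplanarity of the drawing is not required).
-/

namespace Pool.Agent.Results.MP_5a9264_co.ExponentialArea

/-- A directed outerplanar graph with vertex set `Fin n`: it has no directed cycle, and its
vertices can be placed in an order `σ` (equivalently, on a circle) such that no two edges,
taken without direction, interleave. -/
structure OuterDAG (n : ℕ) where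
  Adj : Fin n → Fin n → Prop
  acyclic : ∀ u, ¬ Relation.TransGen Adj u u
  outerplanar : ∃ σ : Fin n → ℤ, Function.Injective σ ∧
    ∀ a b c d, (Adj a c ∨ Adj c a) → (Adj b d ∨ Adj d b) →
      ¬ (σ a < σ b ∧ σ b < σ c ∧ σ c < σ d)

/-- The point of the real plane given by a grid point. -/
def toPlane (p : ℤ × ℤ) : ℝ × ℝ := ((p.1 : ℝ), (p.2 : ℝ))

/-- A straight-line upward planar grid drawing: distinct grid points for the vertices, every
edge goes strictly up, two distinct edges meet only at the point of a common endpoint, and no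
edge passes through a vertex that is not one of its endpoints. -/
structure UpwardDrawing {n : ℕ} (G : OuterDAG n) where
  pos : Fin n → ℤ × ℤ
  pos_inj : Function.Injective pos
  upward : ∀ u v, G.Adj u v → (pos u).2 < (pos v).2
  noncrossing : ∀ u v u' v', G.Adj u v → G.Adj u' v' → (u, v) ≠ (u', v') →
    ∀ z, z ∈ segment ℝ (toPlane (pos u)) (toPlane (pos v)) →
      z ∈ segment ℝ (toPlane (pos u')) (toPlane (pos v')) →
      ∃ w, (w = u ∨ w = v) ∧ (w = u' ∨ w = v') ∧ z = toPlane (pos w)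
  vertex_free : ∀ u v w, G.Adj u v →
    toPlane (pos w) ∈ segment ℝ (toPlane (pos u)) (toPlane (pos v)) → w = u ∨ w = v

/-- The drawing lies in the axis-parallel rectangle `[x₀, x₀ + W] × [y₀, y₀ + H]`. -/
def UpwardDrawing.InBox {n : ℕ} {G : OuterDAG n} (D : UpwardDrawing G)
    (x₀ y₀ : ℤ) (W H : ℕ) : Prop :=
  ∀ v, x₀ ≤ (D.pos v).1 ∧ (D.pos v).1 ≤ x₀ + W ∧ y₀ ≤ (D.pos v).2 ∧ (D.pos v).2 ≤ y₀ + H

/-- The area of a drawing: the least `W * H` over all rectangles with integer corners, of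
width `W` and height `H`, that contain the drawing. -/
noncomputable def UpwardDrawing.area {n : ℕ} {G : OuterDAG n} (D : UpwardDrawing G) : ℕ :=
  sInf {a | ∃ (x₀ y₀ : ℤ) (W H : ℕ), D.InBox x₀ y₀ W H ∧ a = W * H}

/-- The minimum area of a straight-line upward planar grid drawing of `G`. -/
noncomputable def minArea {n : ℕ} (G : OuterDAG n) : ℕ :=
  sInf {a | ∃ D : UpwardDrawing G, a = D.area}

/-- `A n`: the maximum, over all `n`-vertex directed outerplanar graphs that have a drawing, of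
the minimum area of a straight-line upward planar grid drawing. -/
noncomputable def A (n : ℕ) : ℕ :=
  sSup {a | ∃ G : OuterDAG n, Nonempty (UpwardDrawing G) ∧ a = minArea G}

/-! ### Systems of upward curves -/

structure Sys where
  X : ℕ → ℝ
  Y : ℕ → ℝ
  E : ℕ → ℕ → Prop
  F : ℕ → ℕ → ℝ → ℝ
  lt : ∀ u v, E u v → Y u < Y v
  bot : ∀ u v, E u v → F u v (Y u) = X u
  top : ∀ u v, E u v → F u v (Y v) = X v
  ord : ∀ u v u' v', E u v → E u' v' → u ≠ u' → u ≠ v' → v ≠ u' → v ≠ v' →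
    ∀ y z, Y u ≤ y → y ≤ Y v → Y u' ≤ y → y ≤ Y v' → Y u ≤ z → z ≤ Y v → Y u' ≤ z → z ≤ Y v' →
      F u v y < F u' v' y → F u v z < F u' v' z
  ne : ∀ u v u' v', E u v → E u' v' → u ≠ u' → u ≠ v' → v ≠ u' → v ≠ v' →
    ∀ y, Y u ≤ y → y ≤ Y v → Y u' ≤ y → y ≤ Y v' → F u v y ≠ F u' v' y
  aff : ∀ u v, E u v → ∀ y, F u v y = X u + (X v - X u) * ((y - Y u) / (Y v - Y u))

def Sys.flipX (S : Sys) : Sys where
  X v := - S.X v
  Y := S.Y
  E := S.E
  F u v y := - S.F u v y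
  lt := S.lt
  bot u v h := by rw [S.bot u v h]
  top u v h := by rw [S.top u v h]
  ord u v u' v' h h' a b c d y z e1 e2 e3 e4 f1 f2 f3 f4 hlt := by
    have := S.ord u' v' u v h' h a.symm c.symm b.symm d.symm y z e3 e4 e1 e2 f3 f4 f1 f2
      (by linarith)
    linarith
  ne u v u' v' h h' a b c d y e1 e2 e3 e4 he :=
    S.ne u v u' v' h h' a b c d y e1 e2 e3 e4 (by linarith)
  aff u v h y := by rw [S.aff u v h]; ring

def Sys.flipY (S : Sys) : Sys where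
  X := S.X
  Y v := - S.Y v
  E u v := S.E v u
  F u v y := S.F v u (-y)
  lt u v h := by have := S.lt v u h; linarith
  bot u v h := by rw [neg_neg]; exact S.top v u h
  top u v h := by rw [neg_neg]; exact S.bot v u h
  ord u v u' v' h h' a b c d y z e1 e2 e3 e4 f1 f2 f3 f4 hlt :=
    S.ord v u v' u' h h' d c b a (-y) (-z) (by linarith) (by linarith) (by linarith)
      (by linarith) (by linarith) (by linarith) (by linarith) (by linarith) hlt
  ne u v u' v' h h' a b c d y e1 e2 e3 e4 he :=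
    S.ne v u v' u' h h' d c b a (-y) (by linarith) (by linarith) (by linarith) (by linarith) he
  aff u v h y := by
    rw [S.aff v u h]
    have h1 := S.lt v u h
    have h2 : S.Y u - S.Y v ≠ 0 := by intro h0; linarith
    have h3 : -S.Y v - -S.Y u = S.Y u - S.Y v := by ring
    rw [h3]
    field_simp
    ring

/-- the two edges `b → a` and `p → t` do not both pass on the right of `h` -/
theorem gadget_right (S : Sys) {h t p q b a : ℕ}
    (ph : S.E p h) (pt : S.E p t) (qp : S.E q p) (qb : S.E q b)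
    (bh : S.E b h) (ba : S.E b a) (ha : S.E h a) (ht : S.E h t)
    (nd : h ≠ t ∧ h ≠ p ∧ h ≠ q ∧ h ≠ b ∧ h ≠ a ∧ t ≠ p ∧ t ≠ q ∧ t ≠ b ∧ t ≠ a ∧ p ≠ q ∧ p ≠ b ∧ p ≠ a ∧ q ≠ b ∧ q ≠ a ∧ b ≠ a)
    (h1 : S.X h < S.F b a (S.Y h)) (h2 : S.X h < S.F p t (S.Y h)) : False := by
  obtain ⟨n_ht, n_hp, n_hq, n_hb, n_ha, n_tp, n_tq, n_tb, n_ta, n_pq, n_pb, n_pa, n_qb, n_qa, n_ba⟩ := nd
  have l_ph := S.lt _ _ ph
  have l_qp := S.lt _ _ qp
  have l_qb := S.lt _ _ qb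
  have l_bh := S.lt _ _ bh
  have l_ha := S.lt _ _ ha
  have l_ht := S.lt _ _ ht
  rcases le_total (S.Y p) (S.Y b) with c | c
  · have e1 := S.ord p h b a ph ba n_pb n_pa n_hb n_ha (S.Y h) (S.Y b)
      (l_ph.le) (le_refl _) (l_bh.le) (l_ha.le)
      (c) (l_bh.le) (le_refl _) ((l_bh.le).trans l_ha.le) (by rw [S.top _ _ ph]; exact h1)
    rw [S.bot _ _ ba] at e1
    have e2 := S.ord p h q b ph qb n_pq n_pb n_hq n_hb (S.Y b) (S.Y p)
      (c) (l_bh.le) (l_qb.le) (le_refl _)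
      (le_refl _) (l_ph.le) (l_qp.le) (c) (by rw [S.top _ _ qb]; exact e1)
    rw [S.bot _ _ ph] at e2
    have e3 := S.ord p t q b pt qb n_pq n_pb n_tq n_tb (S.Y p) (S.Y b)
      (le_refl _) ((l_ph.le).trans l_ht.le) (l_qp.le) (c)
      (c) ((l_bh.le).trans l_ht.le) (l_qb.le) (le_refl _) (by rw [S.bot _ _ pt]; exact e2)
    rw [S.top _ _ qb] at e3
    have e4 := S.ord b h p t bh pt n_pb.symm n_tb.symm n_hp n_ht (S.Y h) (S.Y b)
      (l_bh.le) (le_refl _) (l_ph.le) (l_ht.le)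
      (le_refl _) (l_bh.le) (c) ((l_bh.le).trans l_ht.le) (by rw [S.top _ _ bh]; exact h2)
    rw [S.bot _ _ bh] at e4
    exact lt_asymm e3 e4
  · have e1 := S.ord b h p t bh pt n_pb.symm n_tb.symm n_hp n_ht (S.Y h) (S.Y p)
      (l_bh.le) (le_refl _) (l_ph.le) (l_ht.le)
      (c) (l_ph.le) (le_refl _) ((l_ph.le).trans l_ht.le) (by rw [S.top _ _ bh]; exact h2)
    rw [S.bot _ _ pt] at e1
    have e2 := S.ord b h q p bh qp n_qb.symm n_pb.symm n_hq n_hp (S.Y p) (S.Y b)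
      (c) (l_ph.le) (l_qp.le) (le_refl _)
      (le_refl _) (l_bh.le) (l_qb.le) (c) (by rw [S.top _ _ qp]; exact e1)
    rw [S.bot _ _ bh] at e2
    have e3 := S.ord b a q p ba qp n_qb.symm n_pb.symm n_qa.symm n_pa.symm (S.Y b) (S.Y p)
      (le_refl _) ((l_bh.le).trans l_ha.le) (l_qb.le) (c)
      (c) ((l_ph.le).trans l_ha.le) (l_qp.le) (le_refl _) (by rw [S.bot _ _ ba]; exact e2)
    rw [S.top _ _ qp] at e3
    have e4 := S.ord p h b a ph ba n_pb n_pa n_hb n_ha (S.Y h) (S.Y p)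
      (l_ph.le) (le_refl _) (l_bh.le) (l_ha.le)
      (le_refl _) (l_ph.le) (c) ((l_ph.le).trans l_ha.le) (by rw [S.top _ _ ph]; exact h1)
    rw [S.bot _ _ ph] at e4
    exact lt_asymm e3 e4

/-- if `p → t` passes on the right of `h` and `b → a` on its left, then `w → s` passes on the
right of `h` -/
theorem gadget_w (S : Sys) {h s t p w q b a : ℕ}
    (hs : S.E h s) (ht : S.E h t) (st : S.E s t) (ph : S.E p h) (pt : S.E p t)
    (wh : S.E w h) (ws : S.E w s) (qp : S.E q p) (qb : S.E q b)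
    (bh : S.E b h) (ba : S.E b a) (ha : S.E h a)
    (nd : h ≠ s ∧ h ≠ t ∧ h ≠ p ∧ h ≠ w ∧ h ≠ q ∧ h ≠ b ∧ h ≠ a ∧ s ≠ t ∧ s ≠ p ∧ s ≠ w ∧ s ≠ q ∧ s ≠ b ∧ s ≠ a ∧ t ≠ p ∧ t ≠ w ∧ t ≠ q ∧ t ≠ b ∧ t ≠ a ∧ p ≠ w ∧ p ≠ q ∧ p ≠ b ∧ p ≠ a ∧ w ≠ q ∧ w ≠ b ∧ w ≠ a ∧ q ≠ b ∧ q ≠ a ∧ b ≠ a)
    (h1 : S.F b a (S.Y h) < S.X h) (h2 : S.X h < S.F p t (S.Y h))
    (h3 : S.F w s (S.Y h) < S.X h) : False := by
  obtain ⟨n_hs, n_ht, n_hp, n_hw, n_hq, n_hb, n_ha, n_st, n_sp, n_sw, n_sq, n_sb, n_sa, n_tp, n_tw, n_tq, n_tb, n_ta, n_pw, n_pq, n_pb, n_pa, n_wq, n_wb, n_wa, n_qb, n_qa, n_ba⟩ := nd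
  have l_ph := S.lt _ _ ph
  have l_qp := S.lt _ _ qp
  have l_qb := S.lt _ _ qb
  have l_bh := S.lt _ _ bh
  have l_ha := S.lt _ _ ha
  have l_ht := S.lt _ _ ht
  have l_hs := S.lt _ _ hs
  have l_st := S.lt _ _ st
  have l_wh := S.lt _ _ wh
  have hne := S.ne w s b a ws ba n_wb n_wa n_sb n_sa (S.Y h)
    (l_wh.le) (l_hs.le) (l_bh.le) (l_ha.le)
  rcases lt_or_gt_of_ne hne with g | g
  · rcases le_total (S.Y w) (S.Y b) with c | c
    · have e1 := S.ord w s b a ws ba n_wb n_wa n_sb n_sa (S.Y h) (S.Y b)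
        (l_wh.le) (l_hs.le) (l_bh.le) (l_ha.le)
        (c) ((l_bh.le).trans l_hs.le) (le_refl _) ((l_bh.le).trans l_ha.le) g
      rw [S.bot _ _ ba] at e1
      have e2 := S.ord b a w h ba wh n_wb.symm n_hb.symm n_wa.symm n_ha.symm (S.Y h) (S.Y b)
        (l_bh.le) (l_ha.le) (l_wh.le) (le_refl _)
        (le_refl _) ((l_bh.le).trans l_ha.le) (c) (l_bh.le) (by rw [S.top _ _ wh]; exact h1)
      rw [S.bot _ _ ba] at e2
      have hqw : S.Y w < S.Y q := by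
        by_contra hc
        push Not at hc
        have f1 := S.ord w s q b ws qb n_wq n_wb n_sq n_sb (S.Y b) (S.Y w)
          (c) ((l_bh.le).trans l_hs.le) (l_qb.le) (le_refl _)
          (le_refl _) ((l_wh.le).trans l_hs.le) (hc) (c) (by rw [S.top _ _ qb]; exact e1)
        have f2 := S.ord q b w h qb wh n_wq.symm n_hq.symm n_wb.symm n_hb.symm (S.Y b) (S.Y w)
          (l_qb.le) (le_refl _) (c) (l_bh.le)
          (hc) (c) (le_refl _) (l_wh.le) (by rw [S.top _ _ qb]; exact e2)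
        rw [S.bot _ _ ws] at f1
        rw [S.bot _ _ wh] at f2
        exact lt_asymm f1 f2
      have f2 := S.ord q b w h qb wh n_wq.symm n_hq.symm n_wb.symm n_hb.symm (S.Y b) (S.Y q)
        (l_qb.le) (le_refl _) (c) (l_bh.le)
        (le_refl _) (l_qb.le) (hqw.le) ((l_qp.le).trans l_ph.le) (by rw [S.top _ _ qb]; exact e2)
      rw [S.bot _ _ qb] at f2
      have f3 := S.ord q p w h qp wh n_wq.symm n_hq.symm n_pw n_hp.symm (S.Y q) (S.Y p)
        (le_refl _) (l_qp.le) (hqw.le) ((l_qp.le).trans l_ph.le)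
        (l_qp.le) (le_refl _) ((hqw.le).trans l_qp.le) (l_ph.le) (by rw [S.bot _ _ qp]; exact f2)
      rw [S.top _ _ qp] at f3
      have f4 := S.ord p t w h pt wh n_pw n_hp.symm n_tw n_ht.symm (S.Y p) (S.Y h)
        (le_refl _) ((l_ph.le).trans l_ht.le) ((hqw.le).trans l_qp.le) (l_ph.le)
        (l_ph.le) (l_ht.le) (l_wh.le) (le_refl _) (by rw [S.bot _ _ pt]; exact f3)
      rw [S.top _ _ wh] at f4
      exact lt_asymm f4 h2
    · have e1 := S.ord w s b a ws ba n_wb n_wa n_sb n_sa (S.Y h) (S.Y w)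
        (l_wh.le) (l_hs.le) (l_bh.le) (l_ha.le)
        (le_refl _) ((l_wh.le).trans l_hs.le) (c) ((l_wh.le).trans l_ha.le) g
      rw [S.bot _ _ ws] at e1
      have e2 := S.ord b a w h ba wh n_wb.symm n_hb.symm n_wa.symm n_ha.symm (S.Y h) (S.Y w)
        (l_bh.le) (l_ha.le) (l_wh.le) (le_refl _)
        (c) ((l_wh.le).trans l_ha.le) (le_refl _) (l_wh.le) (by rw [S.top _ _ wh]; exact h1)
      rw [S.bot _ _ wh] at e2
      exact lt_asymm e1 e2
  · rcases le_total (S.Y a) (S.Y s) with c | c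
    · have e1 := S.ord b a w s ba ws n_wb.symm n_sb.symm n_wa.symm n_sa.symm (S.Y h) (S.Y a)
        (l_bh.le) (l_ha.le) (l_wh.le) (l_hs.le)
        ((l_bh.le).trans l_ha.le) (le_refl _) ((l_wh.le).trans l_ha.le) (c) g
      rw [S.top _ _ ba] at e1
      have e2 := S.ord w s h a ws ha n_hw.symm n_wa n_hs.symm n_sa (S.Y h) (S.Y a)
        (l_wh.le) (l_hs.le) (le_refl _) (l_ha.le)
        ((l_wh.le).trans l_ha.le) (c) (l_ha.le) (le_refl _) (by rw [S.bot _ _ ha]; exact h3)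
      rw [S.top _ _ ha] at e2
      exact lt_asymm e1 e2
    · have e1 := S.ord b a w s ba ws n_wb.symm n_sb.symm n_wa.symm n_sa.symm (S.Y h) (S.Y s)
        (l_bh.le) (l_ha.le) (l_wh.le) (l_hs.le)
        ((l_bh.le).trans l_hs.le) (c) ((l_wh.le).trans l_hs.le) (le_refl _) g
      rw [S.top _ _ ws] at e1
      have e2 := S.ord w s h a ws ha n_hw.symm n_wa n_hs.symm n_sa (S.Y h) (S.Y s)
        (l_wh.le) (l_hs.le) (le_refl _) (l_ha.le)
        ((l_wh.le).trans l_hs.le) (le_refl _) (l_hs.le) (c) (by rw [S.bot _ _ ha]; exact h3)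
      rw [S.top _ _ ws] at e2
      have hta : S.Y t < S.Y a := by
        by_contra hc
        push Not at hc
        have f1 := S.ord b a s t ba st n_sb.symm n_tb.symm n_sa.symm n_ta.symm (S.Y s) (S.Y a)
          ((l_bh.le).trans l_hs.le) (c) (le_refl _) (l_st.le)
          ((l_bh.le).trans l_ha.le) (le_refl _) (c) (hc) (by rw [S.bot _ _ st]; exact e1)
        have f2 := S.ord s t h a st ha n_hs.symm n_sa n_ht.symm n_ta (S.Y s) (S.Y a)
          (le_refl _) (l_st.le) (l_hs.le) (c)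
          (c) (hc) (l_ha.le) (le_refl _) (by rw [S.bot _ _ st]; exact e2)
        rw [S.top _ _ ba] at f1
        rw [S.top _ _ ha] at f2
        exact lt_asymm f1 f2
      have f2 := S.ord s t h a st ha n_hs.symm n_sa n_ht.symm n_ta (S.Y s) (S.Y t)
        (le_refl _) (l_st.le) (l_hs.le) (c)
        (l_st.le) (le_refl _) (l_ht.le) (hta.le) (by rw [S.bot _ _ st]; exact e2)
      rw [S.top _ _ st] at f2
      have f3 := S.ord p t h a pt ha n_hp.symm n_pa n_ht.symm n_ta (S.Y t) (S.Y h)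
        ((l_ph.le).trans l_ht.le) (le_refl _) (l_ht.le) (hta.le)
        (l_ph.le) (l_ht.le) (le_refl _) (l_ha.le) (by rw [S.top _ _ pt]; exact f2)
      rw [S.bot _ _ ha] at f3
      exact lt_asymm f3 h2

/-- conclusion in the right-hand case -/
theorem gadget_inside_right (S : Sys) {h s t p w q b a : ℕ}
    (hs : S.E h s) (ht : S.E h t) (st : S.E s t) (ph : S.E p h) (pt : S.E p t)
    (wh : S.E w h) (ws : S.E w s) (qp : S.E q p) (qb : S.E q b)
    (bh : S.E b h) (ba : S.E b a) (ha : S.E h a)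
    (nd : h ≠ s ∧ h ≠ t ∧ h ≠ p ∧ h ≠ w ∧ h ≠ q ∧ h ≠ b ∧ h ≠ a ∧ s ≠ t ∧ s ≠ p ∧ s ≠ w ∧ s ≠ q ∧ s ≠ b ∧ s ≠ a ∧ t ≠ p ∧ t ≠ w ∧ t ≠ q ∧ t ≠ b ∧ t ≠ a ∧ p ≠ w ∧ p ≠ q ∧ p ≠ b ∧ p ≠ a ∧ w ≠ q ∧ w ≠ b ∧ w ≠ a ∧ q ≠ b ∧ q ≠ a ∧ b ≠ a)
    (h2 : S.X h < S.F p t (S.Y h)) :
    S.F h t (S.Y s) < S.X s ∧ S.X s < S.F p t (S.Y s) := by
  have nd' := nd
  obtain ⟨n_hs, n_ht, n_hp, n_hw, n_hq, n_hb, n_ha, n_st, n_sp, n_sw, n_sq, n_sb, n_sa, n_tp, n_tw, n_tq, n_tb, n_ta, n_pw, n_pq, n_pb, n_pa, n_wq, n_wb, n_wa, n_qb, n_qa, n_ba⟩ := nd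
  have l_ph := S.lt _ _ ph
  have l_qp := S.lt _ _ qp
  have l_qb := S.lt _ _ qb
  have l_bh := S.lt _ _ bh
  have l_ha := S.lt _ _ ha
  have l_ht := S.lt _ _ ht
  have l_hs := S.lt _ _ hs
  have l_st := S.lt _ _ st
  have l_wh := S.lt _ _ wh
  have h1 : S.F b a (S.Y h) < S.X h := by
    have hne := S.ne b a p h ba ph n_pb.symm n_hb.symm n_pa.symm n_ha.symm (S.Y h)
      (l_bh.le) (l_ha.le) (l_ph.le) (le_refl _)
    rw [S.top _ _ ph] at hne
    rcases lt_or_gt_of_ne hne with g | g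
    · exact g
    · exact absurd (gadget_right S ph pt qp qb bh ba ha ht
        ⟨n_ht, n_hp, n_hq, n_hb, n_ha, n_tp, n_tq, n_tb, n_ta, n_pq, n_pb, n_pa, n_qb, n_qa, n_ba⟩ g h2) id
  have h3 : S.X h < S.F w s (S.Y h) := by
    have hne := S.ne w s p h ws ph n_pw.symm n_hw.symm n_sp n_hs.symm (S.Y h)
      (l_wh.le) (l_hs.le) (l_ph.le) (le_refl _)
    rw [S.top _ _ ph] at hne
    rcases lt_or_gt_of_ne hne with g | g
    · exact absurd (gadget_w S hs ht st ph pt wh ws qp qb bh ba ha nd' h1 h2 g) id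
    · exact g
  constructor
  · have e1 := S.ord h t w s ht ws n_hw n_hs n_tw n_st.symm (S.Y h) (S.Y s)
      (le_refl _) (l_ht.le) (l_wh.le) (l_hs.le)
      (l_hs.le) (l_st.le) ((l_wh.le).trans l_hs.le) (le_refl _) (by rw [S.bot _ _ ht]; exact h3)
    rwa [S.top _ _ ws] at e1
  · have hne := S.ne w s p t ws pt n_pw.symm n_tw.symm n_sp n_st (S.Y h)
      (l_wh.le) (l_hs.le) (l_ph.le) (l_ht.le)
    rcases lt_or_gt_of_ne hne with g | g
    · have e1 := S.ord w s p t ws pt n_pw.symm n_tw.symm n_sp n_st (S.Y h) (S.Y s)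
        (l_wh.le) (l_hs.le) (l_ph.le) (l_ht.le)
        ((l_wh.le).trans l_hs.le) (le_refl _) ((l_ph.le).trans l_hs.le) (l_st.le) g
      rwa [S.top _ _ ws] at e1
    · exfalso
      rcases le_total (S.Y w) (S.Y p) with c | c
      · have e1 := S.ord p t w s pt ws n_pw n_sp.symm n_tw n_st.symm (S.Y h) (S.Y p)
          (l_ph.le) (l_ht.le) (l_wh.le) (l_hs.le)
          (le_refl _) ((l_ph.le).trans l_ht.le) (c) ((l_ph.le).trans l_hs.le) g
        rw [S.bot _ _ pt] at e1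
        have e2 := S.ord w h p t wh pt n_pw.symm n_tw.symm n_hp n_ht (S.Y h) (S.Y p)
          (l_wh.le) (le_refl _) (l_ph.le) (l_ht.le)
          (c) (l_ph.le) (le_refl _) ((l_ph.le).trans l_ht.le) (by rw [S.top _ _ wh]; exact h2)
        rw [S.bot _ _ pt] at e2
        have hqw : S.Y w < S.Y q := by
          by_contra hc
          push Not at hc
          have f1 := S.ord w h q p wh qp n_wq n_pw.symm n_hq n_hp (S.Y p) (S.Y w)
            (c) (l_ph.le) (l_qp.le) (le_refl _)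
            (le_refl _) (l_wh.le) (hc) (c) (by rw [S.top _ _ qp]; exact e2)
          have f2 := S.ord q p w s qp ws n_wq.symm n_sq.symm n_pw n_sp.symm (S.Y p) (S.Y w)
            (l_qp.le) (le_refl _) (c) ((l_ph.le).trans l_hs.le)
            (hc) (c) (le_refl _) ((l_wh.le).trans l_hs.le) (by rw [S.top _ _ qp]; exact e1)
          rw [S.bot _ _ ws] at f2
          rw [S.bot _ _ wh] at f1
          exact lt_asymm f1 f2
        have f1 := S.ord w h q p wh qp n_wq n_pw.symm n_hq n_hp (S.Y p) (S.Y q)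
          (c) (l_ph.le) (l_qp.le) (le_refl _)
          (hqw.le) ((l_qp.le).trans l_ph.le) (le_refl _) (l_qp.le) (by rw [S.top _ _ qp]; exact e2)
        rw [S.bot _ _ qp] at f1
        have f2 := S.ord w h q b wh qb n_wq n_wb n_hq n_hb (S.Y q) (S.Y b)
          (hqw.le) ((l_qp.le).trans l_ph.le) (le_refl _) (l_qb.le)
          ((hqw.le).trans l_qb.le) (l_bh.le) (l_qb.le) (le_refl _) (by rw [S.bot _ _ qb]; exact f1)
        rw [S.top _ _ qb] at f2
        have f3 := S.ord w h b a wh ba n_wb n_wa n_hb n_ha (S.Y b) (S.Y h)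
          ((hqw.le).trans l_qb.le) (l_bh.le) (le_refl _) ((l_bh.le).trans l_ha.le)
          (l_wh.le) (le_refl _) (l_bh.le) (l_ha.le) (by rw [S.bot _ _ ba]; exact f2)
        rw [S.top _ _ wh] at f3
        exact lt_asymm f3 h1
      · have e1 := S.ord p t w s pt ws n_pw n_sp.symm n_tw n_st.symm (S.Y h) (S.Y w)
          (l_ph.le) (l_ht.le) (l_wh.le) (l_hs.le)
          (c) ((l_wh.le).trans l_ht.le) (le_refl _) ((l_wh.le).trans l_hs.le) g
        rw [S.bot _ _ ws] at e1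
        have e2 := S.ord w h p t wh pt n_pw.symm n_tw.symm n_hp n_ht (S.Y h) (S.Y w)
          (l_wh.le) (le_refl _) (l_ph.le) (l_ht.le)
          (le_refl _) (l_wh.le) (c) ((l_wh.le).trans l_ht.le) (by rw [S.top _ _ wh]; exact h2)
        rw [S.bot _ _ wh] at e2
        exact lt_asymm e1 e2

/-- In every drawing the vertex `s` lies inside the triangle `p, h, t`. -/
theorem gadget_inside (S : Sys) {h s t p w q b a : ℕ}
    (hs : S.E h s) (ht : S.E h t) (st : S.E s t) (ph : S.E p h) (pt : S.E p t)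
    (wh : S.E w h) (ws : S.E w s) (qp : S.E q p) (qb : S.E q b)
    (bh : S.E b h) (ba : S.E b a) (ha : S.E h a)
    (nd : h ≠ s ∧ h ≠ t ∧ h ≠ p ∧ h ≠ w ∧ h ≠ q ∧ h ≠ b ∧ h ≠ a ∧ s ≠ t ∧ s ≠ p ∧ s ≠ w ∧ s ≠ q ∧ s ≠ b ∧ s ≠ a ∧ t ≠ p ∧ t ≠ w ∧ t ≠ q ∧ t ≠ b ∧ t ≠ a ∧ p ≠ w ∧ p ≠ q ∧ p ≠ b ∧ p ≠ a ∧ w ≠ q ∧ w ≠ b ∧ w ≠ a ∧ q ≠ b ∧ q ≠ a ∧ b ≠ a) :
    (S.F h t (S.Y s) < S.X s ∧ S.X s < S.F p t (S.Y s)) ∨
    (S.F p t (S.Y s) < S.X s ∧ S.X s < S.F h t (S.Y s)) := by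
  have nd' := nd
  obtain ⟨n_hs, n_ht, n_hp, n_hw, n_hq, n_hb, n_ha, n_st, n_sp, n_sw, n_sq, n_sb, n_sa, n_tp, n_tw, n_tq, n_tb, n_ta, n_pw, n_pq, n_pb, n_pa, n_wq, n_wb, n_wa, n_qb, n_qa, n_ba⟩ := nd
  have l_ph := S.lt _ _ ph
  have l_qp := S.lt _ _ qp
  have l_qb := S.lt _ _ qb
  have l_bh := S.lt _ _ bh
  have l_ha := S.lt _ _ ha
  have l_ht := S.lt _ _ ht
  have l_hs := S.lt _ _ hs
  have l_st := S.lt _ _ st
  have l_wh := S.lt _ _ wh
  have hne := S.ne p t b h pt bh n_pb n_hp.symm n_tb n_ht.symm (S.Y h)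
    (l_ph.le) (l_ht.le) (l_bh.le) (le_refl _)
  rw [S.top _ _ bh] at hne
  rcases lt_or_gt_of_ne hne with g | g
  · right
    have := gadget_inside_right S.flipX hs ht st ph pt wh ws qp qb bh ba ha nd'
      (neg_lt_neg g)
    exact ⟨neg_lt_neg_iff.mp this.2, neg_lt_neg_iff.mp this.1⟩
  · left
    exact gadget_inside_right S hs ht st ph pt wh ws qp qb bh ba ha nd' g

/-! ### Growth -/

theorem growth_aux (xe ye x1 y1 x2 y2 xT yT u1 v1 u2 v2 : ℝ)
    (h1 : ye < y2) (h2 : y2 < y1) (h3 : y1 < yT) (h4 : yT < v1) (h5 : v1 < v2)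
    (a1 : xe + (u1 - xe) * ((y1 - ye) / (v1 - ye)) < x1)
    (b1 : x1 < xe + (u2 - xe) * ((y1 - ye) / (v2 - ye)))
    (a2 : xe + (u1 - xe) * ((y2 - ye) / (v1 - ye)) < x2)
    (b2 : x2 < xe + (u2 - xe) * ((y2 - ye) / (v2 - ye)))
    (aT : xe + (u1 - xe) * ((yT - ye) / (v1 - ye)) < xT)
    (bT : xT < xe + (u2 - xe) * ((yT - ye) / (v2 - ye))) :
    |x1 - (x2 + (xT - x2) * ((y1 - y2) / (yT - y2)))| * (v1 - ye) ≤
      |u1 - (xe + (u2 - xe) * ((v1 - ye) / (v2 - ye)))| * (y1 - ye) := by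
  have p1 : 0 < v1 - ye := by linarith
  have p2 : 0 < v2 - ye := by linarith
  have p3 : 0 < yT - y2 := by linarith
  obtain ⟨m1, hm1⟩ : ∃ m1, m1 = (u1 - xe) / (v1 - ye) := ⟨_, rfl⟩
  obtain ⟨m2, hm2⟩ : ∃ m2, m2 = (u2 - xe) / (v2 - ye) := ⟨_, rfl⟩
  have c1 : ∀ y, (u1 - xe) * ((y - ye) / (v1 - ye)) = m1 * (y - ye) := by
    intro y; rw [hm1]; ring
  have c2 : ∀ y, (u2 - xe) * ((y - ye) / (v2 - ye)) = m2 * (y - ye) := by
    intro y; rw [hm2]; ring
  rw [c1] at a1 a2 aT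
  rw [c2] at b1 b2 bT
  rw [c2]
  have hu1 : u1 = xe + m1 * (v1 - ye) := by rw [hm1]; field_simp; ring
  obtain ⟨l, hl⟩ : ∃ l, l = (y1 - y2) / (yT - y2) := ⟨_, rfl⟩
  rw [← hl]
  have l0 : 0 < l := by rw [hl]; exact div_pos (by linarith) p3
  have l1 : l < 1 := by rw [hl, div_lt_one p3]; linarith
  have hy : y1 = y2 + l * (yT - y2) := by rw [hl]; field_simp; ring
  obtain ⟨xQ, hQ⟩ : ∃ xQ, xQ = x2 + (xT - x2) * l := ⟨_, rfl⟩
  rw [← hQ]
  have q1 : xe + m1 * (y1 - ye) < xQ := by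
    have e1 : 0 < (1 - l) * (x2 - (xe + m1 * (y2 - ye))) := mul_pos (by linarith) (by linarith)
    have e2 : 0 < l * (xT - (xe + m1 * (yT - ye))) := mul_pos l0 (by linarith)
    have e3 : xQ - (xe + m1 * (y1 - ye)) =
        (1 - l) * (x2 - (xe + m1 * (y2 - ye))) + l * (xT - (xe + m1 * (yT - ye))) := by
      rw [hQ]
      have : m1 * (y1 - ye) = m1 * (y2 + l * (yT - y2) - ye) := by rw [← hy]
      rw [this]; ring
    linarith
  have q2 : xQ < xe + m2 * (y1 - ye) := by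
    have e1 : 0 < (1 - l) * ((xe + m2 * (y2 - ye)) - x2) := mul_pos (by linarith) (by linarith)
    have e2 : 0 < l * ((xe + m2 * (yT - ye)) - xT) := mul_pos l0 (by linarith)
    have e3 : (xe + m2 * (y1 - ye)) - xQ =
        (1 - l) * ((xe + m2 * (y2 - ye)) - x2) + l * ((xe + m2 * (yT - ye)) - xT) := by
      rw [hQ]
      have : m2 * (y1 - ye) = m2 * (y2 + l * (yT - y2) - ye) := by rw [← hy]
      rw [this]; ring
    linarith
  have q3 : |x1 - xQ| ≤ (m2 - m1) * (y1 - ye) := by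
    rw [abs_le]; constructor <;> nlinarith
  have q4 : |u1 - (xe + m2 * (v1 - ye))| = (m2 - m1) * (v1 - ye) := by
    have hm : 0 < m2 - m1 := by
      by_contra hc
      push Not at hc
      have : 0 < y1 - ye := by linarith
      nlinarith
    have : u1 - (xe + m2 * (v1 - ye)) = -((m2 - m1) * (v1 - ye)) := by rw [hu1]; ring
    rw [this, abs_neg, abs_of_pos (mul_pos hm p1)]
  rw [q4]
  nlinarith [abs_nonneg (x1 - xQ)]

/-- the edges of run `r`, directed as in a bottom run -/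
def RunE (r u v : ℕ) : Prop :=
  (u = 7 * r + 3 ∧ v = 7 * r - 6) ∨ (u = 7 * r + 3 ∧ v = 7 * r + 1) ∨
  (u = 7 * r + 7 ∧ v = 7 * r + 3) ∨ (u = 7 * r + 7 ∧ v = 7 * r + 1) ∨
  (u = 7 * r + 8 ∧ v = 7 * r + 7) ∨ (u = 7 * r + 8 ∧ v = 7 * r + 1) ∨
  (u = 7 * r + 2 ∧ v = 7 * r + 3) ∨ (u = 7 * r + 2 ∧ v = 7 * r - 6) ∨
  (u = 7 * r + 6 ∧ v = 7 * r + 7) ∨ (u = 7 * r + 6 ∧ v = 7 * r + 3) ∨
  (u = 7 * r + 6 ∧ v = 7 * r + 5) ∨ (u = 7 * r + 5 ∧ v = 7 * r + 3) ∨
  (u = 7 * r + 5 ∧ v = 7 * r + 4) ∨ (u = 7 * r + 3 ∧ v = 7 * r + 4)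

/-- run `r` is present and directed as a bottom run -/
def BR (E : ℕ → ℕ → Prop) (r : ℕ) : Prop :=
  (∀ u v, RunE r u v → E u v) ∧ E (7 * r - 6) (7 * r + 1)

theorem run_inside (Q : Sys) (r : ℕ) (h : BR Q.E r) :
    (Q.F (7 * r + 3) (7 * r + 1) (Q.Y (7 * r - 6)) < Q.X (7 * r - 6) ∧
      Q.X (7 * r - 6) < Q.F (7 * r + 7) (7 * r + 1) (Q.Y (7 * r - 6))) ∨
    (Q.F (7 * r + 7) (7 * r + 1) (Q.Y (7 * r - 6)) < Q.X (7 * r - 6) ∧
      Q.X (7 * r - 6) < Q.F (7 * r + 3) (7 * r + 1) (Q.Y (7 * r - 6))) := by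
  obtain ⟨h1, h2⟩ := h
  apply gadget_inside Q (h := 7 * r + 3) (s := 7 * r - 6) (t := 7 * r + 1) (p := 7 * r + 7)
    (w := 7 * r + 2) (q := 7 * r + 6) (b := 7 * r + 5) (a := 7 * r + 4)
  · exact h1 _ _ (by simp [RunE])
  · exact h1 _ _ (by simp [RunE])
  · exact h2
  · exact h1 _ _ (by simp [RunE])
  · exact h1 _ _ (by simp [RunE])
  · exact h1 _ _ (by simp [RunE])
  · exact h1 _ _ (by simp [RunE])
  · exact h1 _ _ (by simp [RunE])
  · exact h1 _ _ (by simp [RunE])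
  · exact h1 _ _ (by simp [RunE])
  · exact h1 _ _ (by simp [RunE])
  · exact h1 _ _ (by simp [RunE])
  · omega

noncomputable def WW (X Y : ℕ → ℝ) (r : ℕ) : ℝ :=
  |X (7 * r + 3) - (X (7 * r + 7) + (X (7 * r + 1) - X (7 * r + 7)) *
    ((Y (7 * r + 3) - Y (7 * r + 7)) / (Y (7 * r + 1) - Y (7 * r + 7))))|

noncomputable def DD (Y : ℕ → ℝ) (r : ℕ) : ℝ := |Y (7 * r + 3) - Y (7 * r + 8)|

noncomputable def HH (Y : ℕ → ℝ) (r : ℕ) : ℝ := |Y (7 * r + 1) - Y (7 * r + 8)|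

theorem WW_flip (X Y : ℕ → ℝ) (r : ℕ) : WW X (fun v => - Y v) r = WW X Y r := by
  unfold WW
  have : (- Y (7 * r + 3) - - Y (7 * r + 7)) / (- Y (7 * r + 1) - - Y (7 * r + 7)) =
      (Y (7 * r + 3) - Y (7 * r + 7)) / (Y (7 * r + 1) - Y (7 * r + 7)) := by
    rw [← neg_div_neg_eq]; congr 1 <;> ring
  simp only [this]

theorem DD_flip (Y : ℕ → ℝ) (r : ℕ) : DD (fun v => - Y v) r = DD Y r := by
  unfold DD
  rw [← abs_neg]; congr 1; ring

theorem HH_flip (Y : ℕ → ℝ) (r : ℕ) : HH (fun v => - Y v) r = HH Y r := by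
  unfold HH
  rw [← abs_neg]; congr 1; ring

theorem step (Q : Sys) (r : ℕ) (h : BR Q.E r) (h' : BR Q.flipY.E (r + 1)) :
    0 < DD Q.Y r ∧ 0 < DD Q.Y (r + 1) ∧ DD Q.Y r ≤ HH Q.Y r ∧
    WW Q.X Q.Y r * HH Q.Y r ≤ WW Q.X Q.Y (r + 1) * DD Q.Y r ∧
    DD Q.Y (r + 1) + HH Q.Y r ≤ HH Q.Y (r + 1) := by
  have hin := run_inside Q.flipY (r + 1) h'
  obtain ⟨h1, h2⟩ := h
  obtain ⟨g1, g2⟩ := h'
  have i1 : 7 * (r + 1) + 3 = 7 * r + 10 := by ring
  have i2 : 7 * (r + 1) + 7 = 7 * r + 14 := by ring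
  have i3 : 7 * (r + 1) + 1 = 7 * r + 8 := by ring
  have i4 : 7 * (r + 1) - 6 = 7 * r + 1 := by omega
  have i5 : 7 * (r + 1) + 8 = 7 * r + 15 := by ring
  rw [i1, i2, i3, i4] at hin
  -- edges
  have e_s1T : Q.E (7 * r + 3) (7 * r + 1) := h1 _ _ (by simp [RunE])
  have e_s2T : Q.E (7 * r + 7) (7 * r + 1) := h1 _ _ (by simp [RunE])
  have e_s2s1 : Q.E (7 * r + 7) (7 * r + 3) := h1 _ _ (by simp [RunE])
  have e_es2 : Q.E (7 * r + 8) (7 * r + 7) := h1 _ _ (by simp [RunE])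
  have e_et1 : Q.E (7 * r + 8) (7 * r + 10) :=
    g1 (7 * r + 10) (7 * r + 8) (by simp [RunE, Nat.mul_add])
  have e_et2 : Q.E (7 * r + 8) (7 * r + 14) :=
    g1 (7 * r + 14) (7 * r + 8) (by simp [RunE, Nat.mul_add])
  have e_Tt1 : Q.E (7 * r + 1) (7 * r + 10) :=
    g1 (7 * r + 10) (7 * r + 1) (by simp [RunE, Nat.mul_add])
  have e_t1t2 : Q.E (7 * r + 10) (7 * r + 14) :=
    g1 (7 * r + 14) (7 * r + 10) (by simp [RunE, Nat.mul_add])
  have e_t2t3 : Q.E (7 * r + 14) (7 * r + 15) :=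
    g1 (7 * r + 15) (7 * r + 14) (by simp [RunE, Nat.mul_add])
  have l1 := Q.lt _ _ e_s1T
  have l2 := Q.lt _ _ e_s2s1
  have l3 := Q.lt _ _ e_es2
  have l4 := Q.lt _ _ e_Tt1
  have l5 := Q.lt _ _ e_t1t2
  have l6 := Q.lt _ _ e_t2t3
  have dD : DD Q.Y r = Q.Y (7 * r + 3) - Q.Y (7 * r + 8) := by
    unfold DD; rw [abs_of_pos]; linarith
  have dD' : DD Q.Y (r + 1) = Q.Y (7 * r + 15) - Q.Y (7 * r + 10) := by
    unfold DD; rw [i1, i5, abs_of_neg] <;> linarith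
  have dH : HH Q.Y r = Q.Y (7 * r + 1) - Q.Y (7 * r + 8) := by
    unfold HH; rw [abs_of_pos]; linarith
  have dH' : HH Q.Y (r + 1) = Q.Y (7 * r + 15) - Q.Y (7 * r + 8) := by
    unfold HH; rw [i3, i5, abs_of_neg] <;> linarith
  rw [dD, dD', dH, dH']
  refine ⟨by linarith, by linarith, by linarith, ?_, by linarith⟩
  -- inside
  have hin' : (Q.F (7 * r + 8) (7 * r + 10) (Q.Y (7 * r + 1)) < Q.X (7 * r + 1) ∧
      Q.X (7 * r + 1) < Q.F (7 * r + 8) (7 * r + 14) (Q.Y (7 * r + 1))) ∨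
      (Q.F (7 * r + 8) (7 * r + 14) (Q.Y (7 * r + 1)) < Q.X (7 * r + 1) ∧
      Q.X (7 * r + 1) < Q.F (7 * r + 8) (7 * r + 10) (Q.Y (7 * r + 1))) := by
    have : - - Q.Y (7 * r + 1) = Q.Y (7 * r + 1) := neg_neg _
    simp only [Sys.flipY, this] at hin
    exact hin
  have tr1 : ∀ s t : ℕ, Q.E s (7 * r + 1) → Q.E (7 * r + 8) t → Q.Y (7 * r + 8) ≤ Q.Y s →
      Q.Y (7 * r + 1) ≤ Q.Y t → s ≠ 7 * r + 8 → s ≠ t → 7 * r + 1 ≠ t →
      Q.X (7 * r + 1) < Q.F (7 * r + 8) t (Q.Y (7 * r + 1)) →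
      Q.X s < Q.F (7 * r + 8) t (Q.Y s) := by
    intro s t es et c1 c2 d1 d2 d3 hh
    have ls := Q.lt _ _ es
    have := Q.ord s (7 * r + 1) (7 * r + 8) t es et d1 d2 (by omega) d3 (Q.Y (7 * r + 1)) (Q.Y s)
      ls.le (le_refl _) (by linarith) c2 (le_refl _) ls.le c1 (by linarith)
      (by rw [Q.top _ _ es]; exact hh)
    rwa [Q.bot _ _ es] at this
  have tr2 : ∀ s t : ℕ, Q.E s (7 * r + 1) → Q.E (7 * r + 8) t → Q.Y (7 * r + 8) ≤ Q.Y s →
      Q.Y (7 * r + 1) ≤ Q.Y t → s ≠ 7 * r + 8 → s ≠ t → 7 * r + 1 ≠ t →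
      Q.F (7 * r + 8) t (Q.Y (7 * r + 1)) < Q.X (7 * r + 1) →
      Q.F (7 * r + 8) t (Q.Y s) < Q.X s := by
    intro s t es et c1 c2 d1 d2 d3 hh
    have ls := Q.lt _ _ es
    have := Q.ord (7 * r + 8) t s (7 * r + 1) et es d1.symm (by omega) d2.symm d3.symm
      (Q.Y (7 * r + 1)) (Q.Y s)
      (by linarith) c2 ls.le (le_refl _) c1 (by linarith) (le_refl _) ls.le
      (by rw [Q.top _ _ es]; exact hh)
    rwa [Q.bot _ _ es] at this
  have hW : WW Q.X Q.Y r = |Q.X (7 * r + 3) - (Q.X (7 * r + 7) + (Q.X (7 * r + 1) -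
      Q.X (7 * r + 7)) * ((Q.Y (7 * r + 3) - Q.Y (7 * r + 7)) /
      (Q.Y (7 * r + 1) - Q.Y (7 * r + 7))))| := rfl
  have hW' : WW Q.X Q.Y (r + 1) = |Q.X (7 * r + 10) - (Q.X (7 * r + 8) +
      (Q.X (7 * r + 14) - Q.X (7 * r + 8)) * ((Q.Y (7 * r + 10) - Q.Y (7 * r + 8)) /
      (Q.Y (7 * r + 14) - Q.Y (7 * r + 8))))| := by
    unfold WW
    rw [i1, i2, i3]
    congr 1
    have hne : Q.Y (7 * r + 14) - Q.Y (7 * r + 8) ≠ 0 := by intro h0; linarith
    have hne' : Q.Y (7 * r + 8) - Q.Y (7 * r + 14) ≠ 0 := by intro h0; linarith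
    have : (Q.Y (7 * r + 10) - Q.Y (7 * r + 14)) / (Q.Y (7 * r + 8) - Q.Y (7 * r + 14)) =
        1 - (Q.Y (7 * r + 10) - Q.Y (7 * r + 8)) / (Q.Y (7 * r + 14) - Q.Y (7 * r + 8)) := by
      field_simp
      ring
    rw [this]; ring
  have key : WW Q.X Q.Y r * (Q.Y (7 * r + 10) - Q.Y (7 * r + 8)) ≤
      WW Q.X Q.Y (r + 1) * (Q.Y (7 * r + 3) - Q.Y (7 * r + 8)) := by
    rw [hW, hW']
    rcases hin' with ⟨a, b⟩ | ⟨a, b⟩
    · have A1 := tr2 (7 * r + 3) (7 * r + 10) e_s1T e_et1 (by linarith) (by linarith)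
        (by omega) (by omega) (by omega) a
      have A2 := tr2 (7 * r + 7) (7 * r + 10) e_s2T e_et1 (by linarith) (by linarith)
        (by omega) (by omega) (by omega) a
      have B1 := tr1 (7 * r + 3) (7 * r + 14) e_s1T e_et2 (by linarith) (by linarith)
        (by omega) (by omega) (by omega) b
      have B2 := tr1 (7 * r + 7) (7 * r + 14) e_s2T e_et2 (by linarith) (by linarith)
        (by omega) (by omega) (by omega) b
      rw [Q.aff _ _ e_et1] at A1 A2 a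
      rw [Q.aff _ _ e_et2] at B1 B2 b
      exact growth_aux _ _ _ _ _ _ _ _ _ _ _ _ (by linarith) l2 l1 l4 l5 A1 B1 A2 B2 a b
    · have A1 := tr2 (7 * r + 3) (7 * r + 14) e_s1T e_et2 (by linarith) (by linarith)
        (by omega) (by omega) (by omega) a
      have A2 := tr2 (7 * r + 7) (7 * r + 14) e_s2T e_et2 (by linarith) (by linarith)
        (by omega) (by omega) (by omega) a
      have B1 := tr1 (7 * r + 3) (7 * r + 10) e_s1T e_et1 (by linarith) (by linarith)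
        (by omega) (by omega) (by omega) b
      have B2 := tr1 (7 * r + 7) (7 * r + 10) e_s2T e_et1 (by linarith) (by linarith)
        (by omega) (by omega) (by omega) b
      rw [Q.aff _ _ e_et2] at A1 A2 a
      rw [Q.aff _ _ e_et1] at B1 B2 b
      have := growth_aux (- Q.X (7 * r + 8)) (Q.Y (7 * r + 8)) (- Q.X (7 * r + 3))
        (Q.Y (7 * r + 3)) (- Q.X (7 * r + 7)) (Q.Y (7 * r + 7)) (- Q.X (7 * r + 1))
        (Q.Y (7 * r + 1)) (- Q.X (7 * r + 10)) (Q.Y (7 * r + 10)) (- Q.X (7 * r + 14))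
        (Q.Y (7 * r + 14)) (by linarith) l2 l1 l4 l5
        (by linarith) (by linarith) (by linarith) (by linarith) (by linarith) (by linarith)
      rw [← abs_neg (Q.X (7 * r + 3) - _), ← abs_neg (Q.X (7 * r + 10) - _)]
      convert this using 3 <;> ring_nf
  have w0 : 0 ≤ WW Q.X Q.Y r := abs_nonneg _
  calc WW Q.X Q.Y r * (Q.Y (7 * r + 1) - Q.Y (7 * r + 8))
      ≤ WW Q.X Q.Y r * (Q.Y (7 * r + 10) - Q.Y (7 * r + 8)) :=
        mul_le_mul_of_nonneg_left (by linarith) w0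
    _ ≤ _ := key

/-! ### Noncrossing segments -/

/-- the segments `A B` and `C D` meet at most in common endpoints -/
def NCP (A B C D : ℝ × ℝ) : Prop :=
  ∀ z, z ∈ segment ℝ A B → z ∈ segment ℝ C D → (z = A ∨ z = B) ∧ (z = C ∨ z = D)

theorem NCP.symm {A B C D : ℝ × ℝ} (h : NCP A B C D) : NCP C D A B :=
  fun z h1 h2 => (h z h2 h1).symm

theorem NCP.swapL {A B C D : ℝ × ℝ} (h : NCP A B C D) : NCP B A C D := by
  intro z h1 h2
  rw [segment_symm] at h1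
  obtain ⟨a, b⟩ := h z h1 h2
  exact ⟨a.symm, b⟩

theorem NCP.swapR {A B C D : ℝ × ℝ} (h : NCP A B C D) : NCP A B D C := by
  intro z h1 h2
  rw [segment_symm] at h2
  obtain ⟨a, b⟩ := h z h1 h2
  exact ⟨a, b.symm⟩

def crR (A B C : ℝ × ℝ) : ℝ := (B.1 - A.1) * (C.2 - A.2) - (B.2 - A.2) * (C.1 - A.1)

theorem ncp_line_pos {A B C D : ℝ × ℝ} (h1 : 0 < crR C D A) (h2 : 0 < crR C D B) :
    NCP A B C D := by
  intro z hz hz'
  exfalso
  rw [segment_eq_image] at hz hz'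
  obtain ⟨s, ⟨s0, s1⟩, rfl⟩ := hz
  obtain ⟨t, -, ht⟩ := hz'
  have e1 := congrArg Prod.fst ht
  have e2 := congrArg Prod.snd ht
  simp only [Prod.fst_add, Prod.smul_fst, Prod.snd_add, Prod.smul_snd, smul_eq_mul] at e1 e2
  unfold crR at h1 h2
  have key : (1 - s) * ((D.1 - C.1) * (A.2 - C.2) - (D.2 - C.2) * (A.1 - C.1)) +
      s * ((D.1 - C.1) * (B.2 - C.2) - (D.2 - C.2) * (B.1 - C.1)) = 0 := by
    have : (1 - s) * ((D.1 - C.1) * (A.2 - C.2) - (D.2 - C.2) * (A.1 - C.1)) +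
      s * ((D.1 - C.1) * (B.2 - C.2) - (D.2 - C.2) * (B.1 - C.1)) =
      (D.1 - C.1) * (((1 - s) * A.2 + s * B.2) - C.2) -
      (D.2 - C.2) * (((1 - s) * A.1 + s * B.1) - C.1) := by ring
    rw [this, ← e1, ← e2]; ring
  rcases eq_or_lt_of_le s0 with h | h
  · subst h; simp only [sub_zero, one_mul, zero_mul, add_zero] at key; linarith
  · have : 0 < s * ((D.1 - C.1) * (B.2 - C.2) - (D.2 - C.2) * (B.1 - C.1)) := mul_pos h h2
    have : 0 ≤ (1 - s) * ((D.1 - C.1) * (A.2 - C.2) - (D.2 - C.2) * (A.1 - C.1)) :=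
      mul_nonneg (by linarith) h1.le
    linarith

theorem ncp_line_neg {A B C D : ℝ × ℝ} (h1 : crR C D A < 0) (h2 : crR C D B < 0) :
    NCP A B C D := by
  apply NCP.swapR
  apply ncp_line_pos
  · unfold crR at *; nlinarith
  · unfold crR at *; nlinarith

theorem ncp_share {A B D : ℝ × ℝ} (h : crR A B D ≠ 0) : NCP A B A D := by
  intro z hz hz'
  rw [segment_eq_image] at hz hz'
  obtain ⟨s, ⟨s0, s1⟩, rfl⟩ := hz
  obtain ⟨t, -, ht⟩ := hz'
  have e1 := congrArg Prod.fst ht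
  have e2 := congrArg Prod.snd ht
  simp only [Prod.fst_add, Prod.smul_fst, Prod.snd_add, Prod.smul_snd, smul_eq_mul] at e1 e2
  have hs : s = 0 := by
    have f1 : s * (B.1 - A.1) = t * (D.1 - A.1) := by linarith
    have f2 : s * (B.2 - A.2) = t * (D.2 - A.2) := by linarith
    have : s * crR A B D = 0 := by
      have : s * crR A B D = (s * (B.1 - A.1)) * (D.2 - A.2) - (s * (B.2 - A.2)) * (D.1 - A.1) := by
        unfold crR; ring
      rw [this, f1, f2]; ring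
    rcases mul_eq_zero.mp this with h' | h'
    · exact h'
    · exact absurd h' h
  subst hs
  have : (fun θ : ℝ => (1 - θ) • A + θ • B) 0 = A := by simp
  rw [this]
  exact ⟨Or.inl rfl, Or.inl rfl⟩

theorem seg_zero {A B z : ℝ × ℝ} (hz : z ∈ segment ℝ A B) (hA : 0 ≤ A.2) (hB : 0 ≤ B.2)
    (hAB : A.2 ≠ 0 ∨ B.2 ≠ 0) : 0 ≤ z.2 ∧ (z.2 = 0 → z = A ∨ z = B) := by
  rw [segment_eq_image] at hz
  obtain ⟨s, ⟨s0, s1⟩, rfl⟩ := hz
  have e : ((fun θ : ℝ => (1 - θ) • A + θ • B) s).2 = (1 - s) * A.2 + s * B.2 := by simp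
  rw [e]
  have p1 : 0 ≤ (1 - s) * A.2 := mul_nonneg (by linarith) hA
  have p2 : 0 ≤ s * B.2 := mul_nonneg s0 hB
  refine ⟨by linarith, fun h0 => ?_⟩
  have q1 : (1 - s) * A.2 = 0 := by linarith
  have q2 : s * B.2 = 0 := by linarith
  rcases mul_eq_zero.mp q1 with h | h
  · right
    have : s = 1 := by linarith
    subst this; simp
  · rcases mul_eq_zero.mp q2 with h' | h'
    · left; subst h'; simp
    · exact absurd hAB (by push Not; exact ⟨h, h'⟩)

theorem ncp_height {A B C D : ℝ × ℝ} (hA : 0 ≤ A.2) (hB : 0 ≤ B.2) (hAB : A.2 ≠ 0 ∨ B.2 ≠ 0)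
    (hC : C.2 ≤ 0) (hD : D.2 ≤ 0) (hCD : C.2 ≠ 0 ∨ D.2 ≠ 0) : NCP A B C D := by
  intro z hz hz'
  obtain ⟨a1, a2⟩ := seg_zero hz hA hB hAB
  have hn : -z ∈ segment ℝ (-C) (-D) := by
    rw [segment_eq_image] at hz' ⊢
    obtain ⟨s, hs, rfl⟩ := hz'
    refine ⟨s, hs, ?_⟩
    simp only [smul_neg]; abel
  obtain ⟨b1, b2⟩ := seg_zero hn (by simpa using hC) (by simpa using hD)
    (by simpa using hCD)
  have hz0 : z.2 = 0 := by
    have : 0 ≤ -z.2 := by simpa using b1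
    linarith
  refine ⟨a2 hz0, ?_⟩
  rcases b2 (by simpa using hz0) with h | h
  · left; exact neg_inj.mp h
  · right; exact neg_inj.mp h

def cr (A B C : ℤ × ℤ) : ℤ := (B.1 - A.1) * (C.2 - A.2) - (B.2 - A.2) * (C.1 - A.1)

theorem crR_cast (A B C : ℤ × ℤ) : crR (toPlane A) (toPlane B) (toPlane C) = (cr A B C : ℝ) := by
  unfold crR cr toPlane; push_cast; ring

def Cert (A B C D : ℤ × ℤ) : Prop :=
  (0 < cr C D A ∧ 0 < cr C D B) ∨ (cr C D A < 0 ∧ cr C D B < 0) ∨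
  (0 < cr A B C ∧ 0 < cr A B D) ∨ (cr A B C < 0 ∧ cr A B D < 0) ∨
  (A = C ∧ cr A B D ≠ 0) ∨ (A = D ∧ cr A B C ≠ 0) ∨
  (B = C ∧ cr B A D ≠ 0) ∨ (B = D ∧ cr B A C ≠ 0)

instance (A B C D : ℤ × ℤ) : Decidable (Cert A B C D) := by unfold Cert; infer_instance

theorem cert_sound {A B C D : ℤ × ℤ} (h : Cert A B C D) :
    NCP (toPlane A) (toPlane B) (toPlane C) (toPlane D) := by
  rcases h with ⟨a, b⟩ | ⟨a, b⟩ | ⟨a, b⟩ | ⟨a, b⟩ | ⟨rfl, b⟩ | ⟨rfl, b⟩ | ⟨rfl, b⟩ | ⟨rfl, b⟩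
  · exact ncp_line_pos (by rw [crR_cast]; exact_mod_cast a) (by rw [crR_cast]; exact_mod_cast b)
  · exact ncp_line_neg (by rw [crR_cast]; exact_mod_cast a) (by rw [crR_cast]; exact_mod_cast b)
  · exact (ncp_line_pos (by rw [crR_cast]; exact_mod_cast a)
      (by rw [crR_cast]; exact_mod_cast b)).symm
  · exact (ncp_line_neg (by rw [crR_cast]; exact_mod_cast a)
      (by rw [crR_cast]; exact_mod_cast b)).symm
  · exact ncp_share (by rw [crR_cast]; exact_mod_cast b)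
  · exact (ncp_share (by rw [crR_cast]; exact_mod_cast b)).swapR
  · exact (ncp_share (by rw [crR_cast]; exact_mod_cast b)).swapL
  · exact (ncp_share (by rw [crR_cast]; exact_mod_cast b)).swapL.swapR

/-! ### The drawing -/

def Rb : ℕ → ℤ
  | 0 => 1
  | r + 1 => Rb r + 4 * (Rb r * (24 * r + 40))

def Mm (r : ℕ) : ℤ := Rb r * (24 * r + 40)

def xX : ℕ → ℤ
  | 0 => 0
  | 1 => 0
  | k + 2 => xX k + 3 * Mm k

def yY (k : ℕ) : ℤ := if k % 2 = 0 then -3 * k else 3 * k - 2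
def sg (k : ℕ) : ℤ := if k % 2 = 0 then 1 else -1

def al : ℕ → ℤ
  | 0 => 1
  | 1 => -2
  | 2 => -3
  | 3 => -4
  | 4 => -1
  | 5 => 2
  | _ => 3

def be : ℕ → ℤ
  | 0 => 3
  | 1 => 2
  | 2 => 1
  | 3 => 3
  | 4 => 5
  | 5 => 4
  | _ => 6

def P (v : ℕ) : ℤ × ℤ :=
  if v = 0 then (0, 0) else if v = 1 then (0, 1) else
    (xX ((v - 2) / 7) + Mm ((v - 2) / 7) * al ((v - 2) % 7),
      yY ((v - 2) / 7) - sg ((v - 2) / 7) * be ((v - 2) % 7))

theorem P_new (r j : ℕ) (hj : j < 7) :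
    P (7 * r + 2 + j) = (xX r + Mm r * al j, yY r - sg r * be j) := by
  have h1 : (7 * r + 2 + j - 2) / 7 = r := by omega
  have h2 : (7 * r + 2 + j - 2) % 7 = j := by omega
  unfold P
  rw [if_neg (by omega), if_neg (by omega), h1, h2]

theorem Rb_pos (r : ℕ) : 0 < Rb r := by
  induction r with
  | zero => simp [Rb]
  | succ r ih =>
    unfold Rb
    have : 0 < Rb r * (24 * r + 40) := mul_pos ih (by positivity)
    omega

theorem Mm_pos (r : ℕ) : 0 < Mm r := mul_pos (Rb_pos r) (by positivity)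

theorem Rb_succ (r : ℕ) : Rb (r + 1) = Rb r + 4 * Mm r := rfl

theorem Rb_mono {r s : ℕ} (h : r ≤ s) : Rb r ≤ Rb s := by
  induction h with
  | refl => exact le_rfl
  | step _ ih => rw [Rb_succ]; have := Mm_pos ‹_›; omega

theorem xX_bound (k : ℕ) : |xX k| ≤ Rb (k - 1) ∧ |xX (k + 1)| ≤ Rb k := by
  induction k with
  | zero => simp [xX, Rb]
  | succ k ih =>
    refine ⟨ih.2, ?_⟩
    have h1 : xX (k + 1 + 1) = xX k + 3 * Mm k := rfl
    rw [h1, Rb_succ]
    have h2 := ih.1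
    have h3 : Rb (k - 1) ≤ Rb k := Rb_mono (by omega)
    have h4 := Mm_pos k
    rw [abs_le] at h2 ⊢
    constructor <;> omega

theorem xX_le (k : ℕ) : |xX k| ≤ Rb k :=
  (xX_bound k).1.trans (Rb_mono (by omega))

theorem xX_le' (k : ℕ) : |xX (k + 1)| ≤ Rb k := (xX_bound k).2

theorem al_bound (j : ℕ) : -4 ≤ al j ∧ al j ≤ 4 := by
  unfold al; split <;> omega

theorem be_bound (j : ℕ) (hj : j < 7) : 1 ≤ be j ∧ be j ≤ 6 ∧ (be j = 6 ↔ j = 6) := by
  interval_cases j <;> simp [be]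

theorem P_ext (r : ℕ) : P (7 * r - 6) = (xX r, yY r) := by
  rcases r with _ | _ | k
  · simp [P, xX, yY]
  · simp [P, xX, yY]
  · have h : 7 * (k + 1 + 1) - 6 = 7 * k + 2 + 6 := by omega
    rw [h, P_new k 6 (by norm_num)]
    have h1 : xX (k + 1 + 1) = xX k + 3 * Mm k := rfl
    have h2 : al 6 = 3 := rfl
    have h3 : be 6 = 6 := rfl
    rw [h1, h2, h3]
    unfold yY sg
    ext
    · simp only; ring
    · simp only
      split_ifs <;> omega

/-- every vertex older than run `r` -/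
theorem old_x (r u : ℕ) (hu : u < 7 * r + 2) : |(P u).1| ≤ Rb r := by
  rcases Nat.lt_or_ge u 2 with h | h
  · have : (P u).1 = 0 := by
      have : u = 0 ∨ u = 1 := by omega
      rcases this with rfl | rfl <;> simp [P]
    rw [this]; simp; exact (Rb_pos r).le
  · obtain ⟨k, j, hj, rfl⟩ : ∃ k j, j < 7 ∧ u = 7 * k + 2 + j :=
      ⟨(u - 2) / 7, (u - 2) % 7, by omega, by omega⟩
    rw [P_new k j hj]
    have hk : k + 1 ≤ r := by omega
    have h1 := Rb_mono hk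
    rw [Rb_succ] at h1
    have h2 := xX_le k
    have h3 := al_bound j
    have h4 := Mm_pos k
    simp only
    rw [abs_le] at h2 ⊢
    constructor <;> nlinarith

/-- normalized height -/
def et (r u : ℕ) : ℤ := sg r * ((P u).2 - yY r)

theorem old_y (r u : ℕ) (hu : u < 7 * r + 2) :
    0 ≤ et r u ∧ et r u ≤ 6 * r + 1 ∧ (et r u = 0 → u = 7 * r - 6) ∧
      (et r u = 6 * r + 1 → u = 7 * r + 1) := by
  rcases Nat.lt_or_ge u 2 with h | h
  · have : u = 0 ∨ u = 1 := by omega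
    rcases this with rfl | rfl
    · have : P 0 = (0, 0) := by simp [P]
      unfold et
      rw [this]
      unfold yY sg
      split_ifs <;> simp only <;> omega
    · have : P 1 = (0, 1) := by simp [P]
      unfold et
      rw [this]
      unfold yY sg
      split_ifs <;> simp only <;> omega
  · obtain ⟨k, j, hj, rfl⟩ : ∃ k j, j < 7 ∧ u = 7 * k + 2 + j :=
      ⟨(u - 2) / 7, (u - 2) % 7, by omega, by omega⟩
    unfold et
    rw [P_new k j hj]
    have hk : k + 1 ≤ r := by omega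
    obtain ⟨b1, b2, b3⟩ := be_bound j hj
    simp only
    generalize be j = B at *
    unfold yY sg
    split_ifs <;> omega

theorem new_y (r j : ℕ) (hj : j < 7) : et r (7 * r + 2 + j) = - be j := by
  unfold et
  rw [P_new r j hj]
  unfold sg
  simp only
  split_ifs <;> ring

/-- the affine map to normalized coordinates -/
noncomputable def nx (r : ℕ) (p : ℝ × ℝ) : ℝ × ℝ :=
  ((p.1 - xX r) / Mm r, (sg r : ℝ) * (p.2 - yY r))

theorem sg_sq (r : ℕ) : (sg r : ℝ) * sg r = 1 := by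
  unfold sg; split_ifs <;> norm_num

theorem Mm_ne (r : ℕ) : (Mm r : ℝ) ≠ 0 := by
  have := Mm_pos r
  exact_mod_cast this.ne'

theorem nx_inj (r : ℕ) : Function.Injective (nx r) := by
  rintro ⟨a, b⟩ ⟨c, d⟩ h
  simp only [nx, Prod.mk.injEq] at h
  obtain ⟨h1, h2⟩ := h
  have hM := Mm_ne r
  have e1 : a = c := by
    field_simp at h1
    linarith
  have e2 : b = d := by
    have h3 := congrArg (fun t => (sg r : ℝ) * t) h2
    simp only [← mul_assoc, sg_sq, one_mul] at h3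
    linarith
  rw [e1, e2]

theorem nx_seg (r : ℕ) {A B z : ℝ × ℝ} (hz : z ∈ segment ℝ A B) :
    nx r z ∈ segment ℝ (nx r A) (nx r B) := by
  rw [segment_eq_image] at hz ⊢
  obtain ⟨s, hs, rfl⟩ := hz
  refine ⟨s, hs, ?_⟩
  unfold nx
  ext
  · simp; field_simp; ring
  · simp; ring

theorem ncp_nx (r : ℕ) {A B C D : ℝ × ℝ} (h : NCP (nx r A) (nx r B) (nx r C) (nx r D)) :
    NCP A B C D := by
  intro z hz hz'
  obtain ⟨a, b⟩ := h _ (nx_seg r hz) (nx_seg r hz')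
  exact ⟨a.imp (fun e => nx_inj r e) (fun e => nx_inj r e),
    b.imp (fun e => nx_inj r e) (fun e => nx_inj r e)⟩

/-! local configuration -/

def lp (j : ℕ) : ℤ × ℤ := if j = 7 then (0, 0) else (al j, - be j)

def li (r j : ℕ) : ℕ := if j = 7 then 7 * r - 6 else 7 * r + 2 + j

def LE : List (ℕ × ℕ) :=
  [(1, 7), (5, 1), (6, 5), (0, 1), (0, 7), (4, 5), (4, 1), (4, 3), (3, 1), (3, 2), (1, 2)]

theorem LE_cert : ∀ e ∈ LE, ∀ f ∈ LE, e ≠ f → Cert (lp e.1) (lp e.2) (lp f.1) (lp f.2) := by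
  decide

theorem LE_lt : ∀ e ∈ LE, e.1 < 8 ∧ e.2 < 8 ∧ (e.1 ≠ 7) := by decide

theorem nx_local (r j : ℕ) (hj : j < 8) : nx r (toPlane (P (li r j))) = toPlane (lp j) := by
  unfold li lp
  by_cases h : j = 7
  · rw [if_pos h, if_pos h, P_ext]
    unfold nx toPlane; simp
  · rw [if_neg h, if_neg h, P_new r j (by omega)]
    have hM := Mm_ne r
    unfold nx toPlane
    ext
    · simp; field_simp
    · simp only
      push_cast
      have := sg_sq r
      linear_combination (-(be j : ℝ)) * this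

noncomputable def dl (r : ℕ) : ℝ := ((xX (r + 1) : ℝ) - xX r) / Mm r

theorem small (r : ℕ) (a : ℤ) (ha : |a| ≤ Rb r) :
    |((a : ℝ) - xX r) / Mm r| * (12 * r + 20) ≤ 1 := by
  have hM : (0 : ℝ) < Mm r := by exact_mod_cast Mm_pos r
  have hR : (0 : ℝ) < Rb r := by exact_mod_cast Rb_pos r
  have h1 := xX_le r
  have h2 : |((a : ℝ) - xX r)| ≤ 2 * Rb r := by
    have ha' : |(a : ℝ)| ≤ Rb r := by exact_mod_cast ha
    have hx' : |(xX r : ℝ)| ≤ Rb r := by exact_mod_cast h1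
    calc |((a : ℝ) - xX r)| ≤ |(a : ℝ)| + |(xX r : ℝ)| := abs_sub _ _
      _ ≤ _ := by linarith
  rw [abs_div, abs_of_pos hM, div_mul_eq_mul_div, div_le_one hM]
  have : (Mm r : ℝ) = Rb r * (24 * r + 40) := by unfold Mm; push_cast; ring
  rw [this]
  have hr : (0 : ℝ) ≤ r := Nat.cast_nonneg r
  nlinarith

theorem nx_T (r : ℕ) : nx r (toPlane (P (7 * r + 1))) = (dl r, 6 * (r : ℝ) + 1) := by
  have h := P_ext (r + 1)
  have h0 : 7 * (r + 1) - 6 = 7 * r + 1 := by omega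
  rw [h0] at h
  rw [h]
  unfold nx toPlane dl
  ext
  · rfl
  · simp only
    have : sg r * (yY (r + 1) - yY r) = 6 * r + 1 := by
      unfold sg yY; split_ifs <;> push_cast <;> omega
    have h2 : ((sg r * (yY (r + 1) - yY r) : ℤ) : ℝ) = ((6 * r + 1 : ℤ) : ℝ) := by rw [this]
    push_cast at h2
    exact h2

theorem dl_small (r : ℕ) : |dl r| * (12 * r + 20) ≤ 1 := by
  have := small r (xX (r + 1)) (xX_le' r)
  exact this

/-- sign of a point with respect to the line of an edge to the far extreme -/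
theorem T_sign (r : ℕ) (ξ η : ℝ) (h1 : |ξ| * (12 * r + 20) ≤ 1) (h2 : 0 ≤ η) (h3 : η ≤ 6 * r) :
    crR (toPlane (lp 1)) (dl r, 6 * r + 1) (ξ, η) < 0 ∧
    0 < crR (toPlane (lp 5)) (dl r, 6 * r + 1) (ξ, η) ∧
    0 < crR (toPlane (lp 6)) (dl r, 6 * r + 1) (ξ, η) := by
  have hd := dl_small r
  have hr : (0 : ℝ) ≤ r := Nat.cast_nonneg r
  obtain ⟨d, hdd⟩ : ∃ d, d = dl r := ⟨_, rfl⟩
  rw [← hdd] at hd ⊢
  have a1 := abs_nonneg ξ
  have a2 := abs_nonneg d
  have a3 := le_abs_self ξ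
  have a4 := neg_abs_le ξ
  have a5 := le_abs_self d
  have a6 := neg_abs_le d
  have e1 : toPlane (lp 1) = (-2, -2) := by simp [lp, al, be, toPlane]
  have e5 : toPlane (lp 5) = (2, -4) := by simp [lp, al, be, toPlane]
  have e6 : toPlane (lp 6) = (3, -6) := by simp [lp, al, be, toPlane]
  rw [e1, e5, e6]
  unfold crR
  simp only
  -- |d| (η + 6) ≤ 1/2 ·, |ξ| (6 r + 7) ≤ 1/2
  have b1 : |d| * (6 * r + 10) ≤ 1 / 2 := by linarith
  have b2 : |ξ| * (6 * r + 10) ≤ 1 / 2 := by linarith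
  have c1 : ∀ t : ℝ, 0 ≤ t → t ≤ 6 * r + 10 → |d| * t ≤ 1 / 2 := fun t t0 t1 =>
    (mul_le_mul_of_nonneg_left t1 a2).trans b1
  have c2 : ∀ t : ℝ, 0 ≤ t → t ≤ 6 * r + 10 → |ξ| * t ≤ 1 / 2 := fun t t0 t1 =>
    (mul_le_mul_of_nonneg_left t1 a1).trans b2
  have f1 : ∀ t : ℝ, 0 ≤ t → t ≤ 6 * r + 10 → d * t ≤ 1 / 2 := fun t t0 t1 =>
    (mul_le_mul_of_nonneg_right a5 t0).trans (c1 t t0 t1)
  have f2 : ∀ t : ℝ, 0 ≤ t → t ≤ 6 * r + 10 → -(1 / 2) ≤ d * t := fun t t0 t1 => by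
    have := mul_le_mul_of_nonneg_right a6 t0
    have := c1 t t0 t1
    linarith
  have g1 : ∀ t : ℝ, 0 ≤ t → t ≤ 6 * r + 10 → ξ * t ≤ 1 / 2 := fun t t0 t1 =>
    (mul_le_mul_of_nonneg_right a3 t0).trans (c2 t t0 t1)
  have g2 : ∀ t : ℝ, 0 ≤ t → t ≤ 6 * r + 10 → -(1 / 2) ≤ ξ * t := fun t t0 t1 => by
    have := mul_le_mul_of_nonneg_right a4 t0
    have := c2 t t0 t1
    linarith
  refine ⟨?_, ?_, ?_⟩
  · have u1 := f1 (η + 2) (by linarith) (by linarith)
    have u2 := g2 (6 * r + 3) (by linarith) (by linarith)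
    nlinarith
  · have u1 := f2 (η + 4) (by linarith) (by linarith)
    have u2 := g1 (6 * r + 5) (by linarith) (by linarith)
    nlinarith
  · have u1 := f2 (η + 6) (by linarith) (by linarith)
    have u2 := g1 (6 * r + 7) (by linarith) (by linarith)
    nlinarith

theorem T_local (r : ℕ) :
    (∀ j ∈ [7, 0, 4, 5, 6], crR (toPlane (lp 1)) (dl r, 6 * r + 1) (toPlane (lp j)) < 0) ∧
    (∀ j ∈ [2, 3], 0 < crR (toPlane (lp 1)) (dl r, 6 * r + 1) (toPlane (lp j))) ∧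
    (∀ j ∈ [7, 0, 1, 2, 3, 4], 0 < crR (toPlane (lp 5)) (dl r, 6 * r + 1) (toPlane (lp j))) ∧
    (∀ j ∈ [6], crR (toPlane (lp 5)) (dl r, 6 * r + 1) (toPlane (lp j)) < 0) ∧
    (∀ j ∈ [7, 0, 1, 2, 3, 4, 5],
      0 < crR (toPlane (lp 6)) (dl r, 6 * r + 1) (toPlane (lp j))) := by
  have hd := dl_small r
  have hr : (0 : ℝ) ≤ r := Nat.cast_nonneg r
  obtain ⟨d, hdd⟩ : ∃ d, d = dl r := ⟨_, rfl⟩
  rw [← hdd] at hd ⊢
  have b1 : |d| ≤ 1 / 20 := by nlinarith [abs_nonneg d]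
  have b2 := abs_le.mp b1
  obtain ⟨b3, b4⟩ := b2
  refine ⟨?_, ?_, ?_, ?_, ?_⟩
  all_goals
    intro j hj
    simp only [List.mem_cons, List.not_mem_nil, or_false] at hj
    rcases hj with rfl | rfl | rfl | rfl | rfl | rfl | rfl <;>
      norm_num [lp, al, be, toPlane, crR] <;> linarith

theorem toPlane_inj : Function.Injective toPlane := by
  rintro ⟨a, b⟩ ⟨c, d⟩ h
  simp only [toPlane, Prod.mk.injEq, Int.cast_inj] at h
  exact Prod.ext h.1 h.2

theorem ncp_below {A B C D : ℝ × ℝ} (c : ℝ) (hA : A.2 < c) (hB : B.2 < c) (hC : c ≤ C.2)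
    (hD : c ≤ D.2) : NCP A B C D := by
  intro z hz hz'
  exfalso
  rw [segment_eq_image] at hz hz'
  obtain ⟨s, ⟨s0, s1⟩, rfl⟩ := hz
  obtain ⟨t, ⟨t0, t1⟩, ht⟩ := hz'
  have e2 := congrArg Prod.snd ht
  simp only [Prod.snd_add, Prod.smul_snd, smul_eq_mul] at e2
  have h1 : c ≤ (1 - t) * C.2 + t * D.2 := by nlinarith
  have h2 : (1 - s) * A.2 + s * B.2 < c := by
    rcases eq_or_lt_of_le s0 with h | h
    · subst h; simpa using hA
    · nlinarith
  linarith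

theorem crR_rot (A T B : ℝ × ℝ) : crR T B A = crR A T B := by unfold crR; ring

theorem crR_rot' (A T B : ℝ × ℝ) : crR T A B = - crR A T B := by unfold crR; ring

/-- local edges against edges to the far extreme -/
theorem ncp_LT (r : ℕ) : ∀ e ∈ LE, ∀ i, (i = 1 ∨ i = 5 ∨ i = 6) →
    NCP (toPlane (lp e.1)) (toPlane (lp e.2)) (toPlane (lp i)) (dl r, 6 * (r : ℝ) + 1) := by
  obtain ⟨f1, f2, f3, f4, f5⟩ := T_local r
  have s1_7 := f1 7 (by simp)
  have s1_0 := f1 0 (by simp)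
  have s1_4 := f1 4 (by simp)
  have s1_5 := f1 5 (by simp)
  have s1_6 := f1 6 (by simp)
  have s1_2 := f2 2 (by simp)
  have s1_3 := f2 3 (by simp)
  have s5_7 := f3 7 (by simp)
  have s5_0 := f3 0 (by simp)
  have s5_1 := f3 1 (by simp)
  have s5_2 := f3 2 (by simp)
  have s5_3 := f3 3 (by simp)
  have s5_4 := f3 4 (by simp)
  have s5_6 := f4 6 (by simp)
  have s6_7 := f5 7 (by simp)
  have s6_0 := f5 0 (by simp)
  have s6_1 := f5 1 (by simp)
  have s6_2 := f5 2 (by simp)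
  have s6_3 := f5 3 (by simp)
  have s6_4 := f5 4 (by simp)
  have s6_5 := f5 5 (by simp)
  intro e he i hi
  simp only [LE, List.mem_cons, List.not_mem_nil, or_false] at he
  rcases he with rfl | rfl | rfl | rfl | rfl | rfl | rfl | rfl | rfl | rfl | rfl <;> rcases hi with rfl | rfl | rfl
  · exact (ncp_share (s1_7.ne)).symm
  · exact ncp_line_pos s5_1 s5_7
  · exact ncp_line_pos s6_1 s6_7
  · exact (ncp_share (s1_5.ne)).symm.swapL
  · exact (ncp_share (s5_1.ne')).symm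
  · exact ncp_line_pos s6_5 s6_1
  · exact ncp_line_neg s1_6 s1_5
  · exact (ncp_share (s5_6.ne)).symm.swapL
  · exact (ncp_share (s6_5.ne')).symm
  · exact (ncp_share (s1_0.ne)).symm.swapL
  · exact ncp_line_pos s5_0 s5_1
  · exact ncp_line_pos s6_0 s6_1
  · exact ncp_line_neg s1_0 s1_7
  · exact ncp_line_pos s5_0 s5_7
  · exact ncp_line_pos s6_0 s6_7
  · exact ncp_line_neg s1_4 s1_5
  · exact (ncp_share (s5_4.ne')).symm.swapL
  · exact ncp_line_pos s6_4 s6_5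
  · exact (ncp_share (s1_4.ne)).symm.swapL
  · exact ncp_line_pos s5_4 s5_1
  · exact ncp_line_pos s6_4 s6_1
  · apply ncp_below (-2)
    · norm_num [lp, al, be, toPlane]
    · norm_num [lp, al, be, toPlane]
    · norm_num [lp, al, be, toPlane]
    · have : (0 : ℝ) ≤ r := Nat.cast_nonneg r
      show (-2 : ℝ) ≤ 6 * (r : ℝ) + 1
      linarith
  · exact ncp_line_pos s5_4 s5_3
  · exact ncp_line_pos s6_4 s6_3
  · exact (ncp_share (s1_3.ne')).symm.swapL
  · exact ncp_line_pos s5_3 s5_1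
  · exact ncp_line_pos s6_3 s6_1
  · exact ncp_line_pos s1_3 s1_2
  · exact ncp_line_pos s5_3 s5_2
  · exact ncp_line_pos s6_3 s6_2
  · exact (ncp_share (s1_2.ne')).symm
  · exact ncp_line_pos s5_1 s5_2
  · exact ncp_line_pos s6_1 s6_2

theorem ncp_TT (r : ℕ) : ∀ i, (i = 1 ∨ i = 5 ∨ i = 6) → ∀ j, (j = 1 ∨ j = 5 ∨ j = 6) → i ≠ j →
    NCP (toPlane (lp i)) (dl r, 6 * (r : ℝ) + 1) (toPlane (lp j)) (dl r, 6 * (r : ℝ) + 1) := by
  obtain ⟨f1, f2, f3, f4, f5⟩ := T_local r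
  have key : ∀ i j : ℕ, crR (toPlane (lp i)) (dl r, 6 * (r : ℝ) + 1) (toPlane (lp j)) ≠ 0 →
      NCP (toPlane (lp i)) (dl r, 6 * (r : ℝ) + 1) (toPlane (lp j)) (dl r, 6 * (r : ℝ) + 1) := by
    intro i j h
    apply NCP.swapL
    apply NCP.swapR
    apply ncp_share
    rw [crR_rot']
    exact neg_ne_zero.mpr h
  intro i hi j hj hij
  rcases hi with rfl | rfl | rfl <;> rcases hj with rfl | rfl | rfl
  · exact absurd rfl hij
  · exact key _ _ (f1 5 (by simp)).ne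
  · exact key _ _ (f1 6 (by simp)).ne
  · exact key _ _ (f3 1 (by simp)).ne'
  · exact absurd rfl hij
  · exact key _ _ (f4 6 (by simp)).ne
  · exact key _ _ (f5 1 (by simp)).ne'
  · exact key _ _ (f5 5 (by simp)).ne'
  · exact absurd rfl hij

theorem runE_cases {r u v : ℕ} (h : RunE r u v) :
    (∃ e ∈ LE, u = li r e.1 ∧ v = li r e.2) ∨
    (∃ i, (i = 1 ∨ i = 5 ∨ i = 6) ∧ u = li r i ∧ v = 7 * r + 1) := by
  unfold RunE at h
  rcases h with ⟨rfl, rfl⟩ | ⟨rfl, rfl⟩ | ⟨rfl, rfl⟩ | ⟨rfl, rfl⟩ | ⟨rfl, rfl⟩ | ⟨rfl, rfl⟩ |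
    ⟨rfl, rfl⟩ | ⟨rfl, rfl⟩ | ⟨rfl, rfl⟩ | ⟨rfl, rfl⟩ | ⟨rfl, rfl⟩ | ⟨rfl, rfl⟩ | ⟨rfl, rfl⟩ |
    ⟨rfl, rfl⟩
  · exact Or.inl ⟨(1, 7), by simp [LE], by simp [li], by simp [li]⟩
  · exact Or.inr ⟨1, by simp, by simp [li], rfl⟩
  · exact Or.inl ⟨(5, 1), by simp [LE], by simp [li], by simp [li]⟩
  · exact Or.inr ⟨5, by simp, by simp [li], rfl⟩
  · exact Or.inl ⟨(6, 5), by simp [LE], by simp [li], by simp [li]⟩
  · exact Or.inr ⟨6, by simp, by simp [li], rfl⟩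
  · exact Or.inl ⟨(0, 1), by simp [LE], by simp [li], by simp [li]⟩
  · exact Or.inl ⟨(0, 7), by simp [LE], by simp [li], by simp [li]⟩
  · exact Or.inl ⟨(4, 5), by simp [LE], by simp [li], by simp [li]⟩
  · exact Or.inl ⟨(4, 1), by simp [LE], by simp [li], by simp [li]⟩
  · exact Or.inl ⟨(4, 3), by simp [LE], by simp [li], by simp [li]⟩
  · exact Or.inl ⟨(3, 1), by simp [LE], by simp [li], by simp [li]⟩
  · exact Or.inl ⟨(3, 2), by simp [LE], by simp [li], by simp [li]⟩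
  · exact Or.inl ⟨(1, 2), by simp [LE], by simp [li], by simp [li]⟩

theorem li_inj (r : ℕ) {i j : ℕ} (hi : i < 8) (hj : j < 8) (h : li r i = li r j) : i = j := by
  unfold li at h; split_ifs at h <;> omega

theorem nc_same (r : ℕ) {u v u' v' : ℕ} (h : RunE r u v) (h' : RunE r u' v')
    (hne : ¬ (u = u' ∧ v = v')) :
    NCP (toPlane (P u)) (toPlane (P v)) (toPlane (P u')) (toPlane (P v')) := by
  apply ncp_nx r
  rcases runE_cases h with ⟨e, he, rfl, rfl⟩ | ⟨i, hi, rfl, rfl⟩ <;>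
    rcases runE_cases h' with ⟨f, hf, rfl, rfl⟩ | ⟨j, hj, rfl, rfl⟩
  · obtain ⟨e1, e2, -⟩ := LE_lt e he
    obtain ⟨f1, f2, -⟩ := LE_lt f hf
    rw [nx_local r _ e1, nx_local r _ e2, nx_local r _ f1, nx_local r _ f2]
    apply cert_sound
    apply LE_cert e he f hf
    rintro rfl
    exact hne ⟨rfl, rfl⟩
  · obtain ⟨e1, e2, -⟩ := LE_lt e he
    rw [nx_local r _ e1, nx_local r _ e2, nx_local r j (by omega), nx_T]
    exact ncp_LT r e he j hj
  · obtain ⟨f1, f2, -⟩ := LE_lt f hf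
    rw [nx_local r _ f1, nx_local r _ f2, nx_local r i (by omega), nx_T]
    exact (ncp_LT r f hf i hi).symm
  · rw [nx_local r i (by omega), nx_local r j (by omega), nx_T]
    apply ncp_TT r i hi j hj
    rintro rfl
    exact hne ⟨rfl, rfl⟩

theorem nx_old (r u : ℕ) (hu : u < 7 * r + 2) : ∃ ξ : ℝ, |ξ| * (12 * r + 20) ≤ 1 ∧
    nx r (toPlane (P u)) = (ξ, (et r u : ℝ)) := by
  refine ⟨_, small r (P u).1 (old_x r u hu), ?_⟩
  unfold nx toPlane et
  ext
  · rfl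
  · simp only; push_cast; ring

theorem nc_old (r : ℕ) {u v u' v' : ℕ} (hu : u < 7 * r + 2) (hv : v < 7 * r + 2) (huv : u ≠ v)
    (h' : RunE r u' v') :
    NCP (toPlane (P u)) (toPlane (P v)) (toPlane (P u')) (toPlane (P v')) := by
  apply ncp_nx r
  obtain ⟨a1, a2, a3, a4⟩ := old_y r u hu
  obtain ⟨b1, b2, b3, b4⟩ := old_y r v hv
  obtain ⟨ξ, hξ, eu⟩ := nx_old r u hu
  obtain ⟨ζ, hζ, ev⟩ := nx_old r v hv
  have a1' : (0 : ℝ) ≤ (et r u : ℝ) := by exact_mod_cast a1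
  have b1' : (0 : ℝ) ≤ (et r v : ℝ) := by exact_mod_cast b1
  rcases runE_cases h' with ⟨f, hf, rfl, rfl⟩ | ⟨i, hi, rfl, rfl⟩
  · obtain ⟨f1, f2, f3⟩ := LE_lt f hf
    rw [nx_local r _ f1, nx_local r _ f2, eu, ev]
    have hle : ∀ j < 8, (toPlane (lp j)).2 ≤ 0 := by
      intro j hj
      have : (lp j).2 ≤ 0 := by
        interval_cases j <;> simp [lp, be]
      show ((lp j).2 : ℝ) ≤ 0
      exact_mod_cast this
    apply ncp_height a1' b1' _ (hle _ f1) (hle _ f2)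
    · left
      have : (lp f.1).2 ≠ 0 := by
        have h8 : f.1 < 7 := by omega
        generalize f.1 = j at *
        interval_cases j <;> simp [lp, be]
      show ((lp f.1).2 : ℝ) ≠ 0
      exact_mod_cast this
    · by_contra hc
      push Not at hc
      have p1 : (et r u : ℝ) = 0 := hc.1
      have p2 : (et r v : ℝ) = 0 := hc.2
      have q1 : et r u = 0 := by exact_mod_cast p1
      have q2 : et r v = 0 := by exact_mod_cast p2
      exact huv ((a3 q1).trans (b3 q2).symm)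
  · rw [nx_local r i (by omega), nx_T, eu, ev]
    by_cases cu : u = 7 * r + 1
    · -- u is the far extreme
      have hv7 : v ≠ 7 * r + 1 := fun h => huv (cu.trans h.symm)
      have b5 : et r v ≤ 6 * r := by
        by_contra hc
        exact hv7 (b4 (by omega))
      have b5' : (et r v : ℝ) ≤ 6 * r := by exact_mod_cast b5
      have eT := nx_T r
      rw [cu] at eu
      rw [← cu] at eT
      rw [cu] at eT ⊢
      rw [← eu, eT]
      apply NCP.swapR
      apply ncp_share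
      rw [crR_rot]
      obtain ⟨s1, s5, s6⟩ := T_sign r ζ (et r v) hζ b1' b5'
      rcases hi with rfl | rfl | rfl
      · exact s1.ne
      · exact s5.ne'
      · exact s6.ne'
    · have a5 : et r u ≤ 6 * r := by
        by_contra hc
        exact cu (a4 (by omega))
      have a5' : (et r u : ℝ) ≤ 6 * r := by exact_mod_cast a5
      obtain ⟨s1, s5, s6⟩ := T_sign r ξ (et r u) hξ a1' a5'
      by_cases cv : v = 7 * r + 1
      · have eT := nx_T r
        rw [← cv] at eT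
        rw [← ev, eT]
        apply NCP.swapR
        apply NCP.swapL
        apply ncp_share
        rw [crR_rot]
        rcases hi with rfl | rfl | rfl
        · exact s1.ne
        · exact s5.ne'
        · exact s6.ne'
      · have b5 : et r v ≤ 6 * r := by
          by_contra hc
          exact cv (b4 (by omega))
        have b5' : (et r v : ℝ) ≤ 6 * r := by exact_mod_cast b5
        obtain ⟨t1, t5, t6⟩ := T_sign r ζ (et r v) hζ b1' b5'
        rcases hi with rfl | rfl | rfl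
        · exact ncp_line_neg s1 t1
        · exact ncp_line_pos s5 t5
        · exact ncp_line_pos s6 t6

def UE (u v : ℕ) : Prop := (u = 0 ∧ v = 1) ∨ ∃ r, RunE r u v

theorem runE_lt {r u v : ℕ} (h : RunE r u v) : u < 7 * r + 9 ∧ v < 7 * r + 9 ∧ u ≠ v := by
  rcases h with ⟨rfl, rfl⟩ | ⟨rfl, rfl⟩ | ⟨rfl, rfl⟩ | ⟨rfl, rfl⟩ | ⟨rfl, rfl⟩ | ⟨rfl, rfl⟩ |
    ⟨rfl, rfl⟩ | ⟨rfl, rfl⟩ | ⟨rfl, rfl⟩ | ⟨rfl, rfl⟩ | ⟨rfl, rfl⟩ | ⟨rfl, rfl⟩ | ⟨rfl, rfl⟩ |
    ⟨rfl, rfl⟩ <;> omega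

theorem nc_all {u v u' v' : ℕ} (h : UE u v) (h' : UE u' v') (hne : ¬ (u = u' ∧ v = v')) :
    NCP (toPlane (P u)) (toPlane (P v)) (toPlane (P u')) (toPlane (P v')) := by
  rcases h with ⟨rfl, rfl⟩ | ⟨r, h⟩ <;> rcases h' with ⟨rfl, rfl⟩ | ⟨r', h'⟩
  · exact absurd ⟨rfl, rfl⟩ hne
  · exact nc_old r' (by omega) (by omega) (by omega) h'
  · exact (nc_old r (by omega) (by omega) (by omega) h).symm
  · rcases lt_trichotomy r r' with c | c | c
    · obtain ⟨q1, q2, q3⟩ := runE_lt h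
      exact nc_old r' (by omega) (by omega) q3 h'
    · subst c
      exact nc_same r h h' hne
    · obtain ⟨q1, q2, q3⟩ := runE_lt h'
      exact (nc_old r (by omega) (by omega) q3 h).symm

theorem P_inj : Function.Injective P := by
  have key : ∀ u v : ℕ, u < v → P u ≠ P v := by
    intro u v huv he
    rcases Nat.lt_or_ge v 2 with h | h
    · have h1 : u = 0 := by omega
      have h2 : v = 1 := by omega
      subst h1; subst h2
      simp [P] at he
    · obtain ⟨k, j, hj, rfl⟩ : ∃ k j, j < 7 ∧ v = 7 * k + 2 + j :=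
        ⟨(v - 2) / 7, (v - 2) % 7, by omega, by omega⟩
      obtain ⟨b1, b2, -⟩ := be_bound j hj
      have hy := new_y k j hj
      rcases Nat.lt_or_ge u (7 * k + 2) with hu | hu
      · have h1 := (old_y k u hu).1
        unfold et at h1 hy
        rw [he] at h1
        omega
      · obtain ⟨i, hi, rfl⟩ : ∃ i, i < 7 ∧ u = 7 * k + 2 + i := ⟨u - (7 * k + 2), by omega, by omega⟩
        have hy' := new_y k i hi
        unfold et at hy hy'
        rw [he] at hy'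
        have hbe : be i = be j := by omega
        rw [P_new k i hi, P_new k j hj] at he
        simp only [Prod.mk.injEq] at he
        have hM := Mm_pos k
        have hal : al i = al j := by
          have := he.1
          have h3 : Mm k * al i = Mm k * al j := by omega
          exact mul_left_cancel₀ hM.ne' h3
        interval_cases i <;> interval_cases j <;> simp [al, be] at hbe hal huv
  intro u v h
  by_contra hne
  rcases lt_or_gt_of_ne hne with c | c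
  · exact key u v c h
  · exact key v u c h.symm

theorem incident (w : ℕ) : ∃ x y, UE x y ∧ (w = x ∨ w = y) := by
  rcases Nat.lt_or_ge w 2 with h | h
  · exact ⟨0, 1, Or.inl ⟨rfl, rfl⟩, by omega⟩
  · obtain ⟨k, j, hj, rfl⟩ : ∃ k j, j < 7 ∧ w = 7 * k + 2 + j :=
      ⟨(w - 2) / 7, (w - 2) % 7, by omega, by omega⟩
    interval_cases j
    · exact ⟨7 * k + 2, 7 * k + 3, Or.inr ⟨k, by simp [RunE]⟩, by omega⟩
    · exact ⟨7 * k + 2, 7 * k + 3, Or.inr ⟨k, by simp [RunE]⟩, by omega⟩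
    · exact ⟨7 * k + 3, 7 * k + 4, Or.inr ⟨k, by simp [RunE]⟩, by omega⟩
    · exact ⟨7 * k + 5, 7 * k + 3, Or.inr ⟨k, by simp [RunE]⟩, by omega⟩
    · exact ⟨7 * k + 6, 7 * k + 7, Or.inr ⟨k, by simp [RunE]⟩, by omega⟩
    · exact ⟨7 * k + 6, 7 * k + 7, Or.inr ⟨k, by simp [RunE]⟩, by omega⟩
    · exact ⟨7 * k + 8, 7 * k + 7, Or.inr ⟨k, by simp [RunE]⟩, by omega⟩

theorem free_all {u v w : ℕ} (h : UE u v)
    (hw : toPlane (P w) ∈ segment ℝ (toPlane (P u)) (toPlane (P v))) : w = u ∨ w = v := by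
  obtain ⟨x, y, hxy, hwxy⟩ := incident w
  by_cases hc : u = x ∧ v = y
  · obtain ⟨rfl, rfl⟩ := hc; exact hwxy
  · have hz : toPlane (P w) ∈ segment ℝ (toPlane (P x)) (toPlane (P y)) := by
      rcases hwxy with rfl | rfl
      · exact left_mem_segment _ _ _
      · exact right_mem_segment _ _ _
    have := (nc_all h hxy hc _ hw hz).1
    exact this.imp (fun e => P_inj (toPlane_inj e)) (fun e => P_inj (toPlane_inj e))

theorem run_up {r u v : ℕ} (h : RunE r u v) : et r u < et r v := by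
  rcases runE_cases h with ⟨e, he, rfl, rfl⟩ | ⟨i, hi, rfl, rfl⟩
  · have hl : ∀ j < 8, et r (li r j) = (lp j).2 := by
      intro j hj
      unfold li lp
      by_cases h7 : j = 7
      · rw [if_pos h7, if_pos h7]
        unfold et; rw [P_ext]; simp
      · rw [if_neg h7, if_neg h7]; exact new_y r j (by omega)
    obtain ⟨e1, e2, -⟩ := LE_lt e he
    rw [hl _ e1, hl _ e2]
    have : ∀ e ∈ LE, (lp e.1).2 < (lp e.2).2 := by decide
    exact this e he
  · have hT : et r (7 * r + 1) = 6 * r + 1 := by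
      have h := P_ext (r + 1)
      have h0 : 7 * (r + 1) - 6 = 7 * r + 1 := by omega
      rw [h0] at h
      unfold et
      rw [h]
      unfold sg yY; split_ifs <;> simp only <;> push_cast <;> omega
    rw [hT]
    have : et r (li r i) = - be i := by
      unfold li
      rw [if_neg (by omega)]
      exact new_y r i (by omega)
    rw [this]
    have := (be_bound i (by omega)).1
    omega

/-! ### The graphs -/

def AdjN (u v : ℕ) : Prop :=
  (u = 0 ∧ v = 1) ∨ (∃ r, r % 2 = 0 ∧ RunE r u v) ∨ (∃ r, r % 2 = 1 ∧ RunE r v u)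

theorem adjN_up {u v : ℕ} (h : AdjN u v) : (P u).2 < (P v).2 := by
  rcases h with ⟨rfl, rfl⟩ | ⟨r, hr, h⟩ | ⟨r, hr, h⟩
  · simp [P]
  · have := run_up h
    unfold et sg at this
    rw [if_pos hr] at this
    omega
  · have := run_up h
    unfold et sg at this
    rw [if_neg (by omega)] at this
    omega

theorem adjN_UE {u v : ℕ} (h : AdjN u v) : UE u v ∨ UE v u := by
  rcases h with ⟨rfl, rfl⟩ | ⟨r, hr, h⟩ | ⟨r, hr, h⟩
  · exact Or.inl (Or.inl ⟨rfl, rfl⟩)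
  · exact Or.inl (Or.inr ⟨r, h⟩)
  · exact Or.inr (Or.inr ⟨r, h⟩)

/-! outerplanarity -/

def sig (v : ℕ) : ℤ := if v = 1 ∨ (2 ≤ v ∧ (v - 2) / 7 % 2 = 1) then (v : ℤ) else - (v : ℤ)

def tau (r v : ℕ) : ℤ := sg r * sig v

theorem tau_old (r u : ℕ) (hu : u < 7 * r + 2) :
    -((7 * r - 6 : ℕ) : ℤ) ≤ tau r u ∧ tau r u ≤ 7 * r + 1 := by
  unfold tau sg sig
  split_ifs <;> omega

theorem tau_new (r j : ℕ) (hj : j < 7) : tau r (7 * r + 2 + j) = -(7 * r + 2 + j : ℤ) := by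
  unfold tau sg sig
  split_ifs <;> push_cast <;> omega

theorem tau_S (r : ℕ) : tau r (7 * r - 6) = -((7 * r - 6 : ℕ) : ℤ) := by
  unfold tau sg sig
  split_ifs <;> omega

theorem tau_T (r : ℕ) : tau r (7 * r + 1) = 7 * r + 1 := by
  unfold tau sg sig
  split_ifs <;> push_cast <;> omega

def rank (c : ℕ) : ℤ := if c = 8 then 2 else if c = 7 then 1 else - (c : ℤ)

def vi (r c : ℕ) : ℕ := if c = 8 then 7 * r + 1 else if c = 7 then 7 * r - 6 else 7 * r + 2 + c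

theorem vi_mono (r : ℕ) {c d : ℕ} (hc : c < 9) (hd : d < 9) (h : tau r (vi r c) < tau r (vi r d)) :
    rank c < rank d := by
  have key : ∀ c < 9, tau r (vi r c) = if c = 8 then 7 * (r : ℤ) + 1 else
      if c = 7 then -((7 * r - 6 : ℕ) : ℤ) else -(7 * r + 2 + c : ℤ) := by
    intro c hc
    unfold vi
    split_ifs
    · exact tau_T r
    · exact tau_S r
    · exact tau_new r c (by omega)
  rw [key c hc, key d hd] at h
  unfold rank
  split_ifs at h ⊢ <;> omega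

def RE : List (ℕ × ℕ) :=
  [(1, 7), (1, 8), (5, 1), (5, 8), (6, 5), (6, 8), (0, 1), (0, 7), (4, 5), (4, 1), (4, 3), (3, 1),
   (3, 2), (1, 2), (7, 1), (8, 1), (1, 5), (8, 5), (5, 6), (8, 6), (1, 0), (7, 0), (5, 4), (1, 4),
   (3, 4), (1, 3), (2, 3), (2, 1)]

theorem RE_ok : ∀ e ∈ RE, ∀ f ∈ RE,
    ¬ (rank e.1 < rank f.1 ∧ rank f.1 < rank e.2 ∧ rank e.2 < rank f.2) := by decide

theorem RE_lt : ∀ e ∈ RE, e.1 < 9 ∧ e.2 < 9 := by decide

theorem runS_cases {r u v : ℕ} (h : RunE r u v ∨ RunE r v u) :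
    ∃ e ∈ RE, u = vi r e.1 ∧ v = vi r e.2 := by
  have key : ∀ {u v : ℕ}, RunE r u v → (∃ e ∈ RE, u = vi r e.1 ∧ v = vi r e.2) ∧
      (∃ e ∈ RE, v = vi r e.1 ∧ u = vi r e.2) := by
    intro u v h
    rcases runE_cases h with ⟨e, he, rfl, rfl⟩ | ⟨i, hi, rfl, rfl⟩
    · have hvi : ∀ j < 8, li r j = vi r j := by
        intro j hj; unfold li vi; split_ifs <;> omega
      obtain ⟨e1, e2, -⟩ := LE_lt e he
      have h1 : ∀ e ∈ LE, (e.1, e.2) ∈ RE ∧ (e.2, e.1) ∈ RE := by decide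
      obtain ⟨g1, g2⟩ := h1 e he
      exact ⟨⟨_, g1, hvi _ e1, hvi _ e2⟩, ⟨_, g2, hvi _ e2, hvi _ e1⟩⟩
    · have h8 : vi r 8 = 7 * r + 1 := rfl
      have hi' : vi r i = li r i := by unfold li vi; split_ifs <;> omega
      rcases hi with rfl | rfl | rfl
      · exact ⟨⟨(1, 8), by decide, hi'.symm, h8.symm⟩, ⟨(8, 1), by decide, h8.symm, hi'.symm⟩⟩
      · exact ⟨⟨(5, 8), by decide, hi'.symm, h8.symm⟩, ⟨(8, 5), by decide, h8.symm, hi'.symm⟩⟩
      · exact ⟨⟨(6, 8), by decide, hi'.symm, h8.symm⟩, ⟨(8, 6), by decide, h8.symm, hi'.symm⟩⟩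
  rcases h with h | h
  · exact (key h).1
  · exact (key h).2

theorem out_same (r : ℕ) {a b c d : ℕ} (h : RunE r a c ∨ RunE r c a)
    (h' : RunE r b d ∨ RunE r d b) :
    ¬ (tau r a < tau r b ∧ tau r b < tau r c ∧ tau r c < tau r d) := by
  obtain ⟨e, he, rfl, rfl⟩ := runS_cases h
  obtain ⟨f, hf, rfl, rfl⟩ := runS_cases h'
  obtain ⟨e1, e2⟩ := RE_lt e he
  obtain ⟨f1, f2⟩ := RE_lt f hf
  rintro ⟨q1, q2, q3⟩
  exact RE_ok e he f hf ⟨vi_mono r e1 f1 q1, vi_mono r f1 e2 q2, vi_mono r e2 f2 q3⟩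

theorem out_old (r : ℕ) {p q x y : ℕ} (hp : p < 7 * r + 2) (hq : q < 7 * r + 2)
    (h' : RunE r x y ∨ RunE r y x) :
    ¬ (tau r p < tau r x ∧ tau r x < tau r q ∧ tau r q < tau r y) ∧
    ¬ (tau r x < tau r p ∧ tau r p < tau r y ∧ tau r y < tau r q) := by
  obtain ⟨a1, a2⟩ := tau_old r p hp
  obtain ⟨b1, b2⟩ := tau_old r q hq
  obtain ⟨f, hf, rfl, rfl⟩ := runS_cases h'
  obtain ⟨f1, f2⟩ := RE_lt f hf
  have key : ∀ c < 9, tau r (vi r c) = if c = 8 then 7 * (r : ℤ) + 1 else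
      if c = 7 then -((7 * r - 6 : ℕ) : ℤ) else -(7 * r + 2 + c : ℤ) := by
    intro c hc
    unfold vi
    split_ifs
    · exact tau_T r
    · exact tau_S r
    · exact tau_new r c (by omega)
  rw [key _ f1, key _ f2]
  split_ifs <;> omega

theorem sig_tau (r v : ℕ) : (r % 2 = 0 → tau r v = sig v) ∧ (r % 2 = 1 → tau r v = - sig v) := by
  unfold tau sg
  constructor
  · intro h; rw [if_pos h]; ring
  · intro h; rw [if_neg (by omega)]; ring

theorem outer_all {a b c d : ℕ} (h : UE a c ∨ UE c a) (h' : UE b d ∨ UE d b) :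
    ¬ (sig a < sig b ∧ sig b < sig c ∧ sig c < sig d) := by
  -- tags
  have tag : ∀ {x y : ℕ}, (UE x y ∨ UE y x) →
      ((x = 0 ∧ y = 1) ∨ (x = 1 ∧ y = 0)) ∨ ∃ r, (RunE r x y ∨ RunE r y x) := by
    intro x y h
    rcases h with (⟨rfl, rfl⟩ | ⟨r, h⟩) | (⟨rfl, rfl⟩ | ⟨r, h⟩)
    · exact Or.inl (Or.inl ⟨rfl, rfl⟩)
    · exact Or.inr ⟨r, Or.inl h⟩
    · exact Or.inl (Or.inr ⟨rfl, rfl⟩)
    · exact Or.inr ⟨r, Or.inr h⟩
  have lts : ∀ {r x y : ℕ}, (RunE r x y ∨ RunE r y x) → x < 7 * r + 9 ∧ y < 7 * r + 9 := by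
    intro r x y h
    rcases h with h | h
    · obtain ⟨q1, q2, -⟩ := runE_lt h; exact ⟨q1, q2⟩
    · obtain ⟨q1, q2, -⟩ := runE_lt h; exact ⟨q2, q1⟩
  -- old edge `(a, c)` against a new edge `(b, d)`
  have k1 : ∀ r : ℕ, a < 7 * r + 2 → c < 7 * r + 2 → (RunE r b d ∨ RunE r d b) →
      ¬ (sig a < sig b ∧ sig b < sig c ∧ sig c < sig d) := by
    intro r ha hc hbd
    rcases Nat.mod_two_eq_zero_or_one r with hr | hr
    · have := (out_old r ha hc hbd).1
      rw [(sig_tau r a).1 hr, (sig_tau r b).1 hr, (sig_tau r c).1 hr, (sig_tau r d).1 hr] at this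
      exact this
    · have := (out_old r hc ha hbd.symm).2
      rw [(sig_tau r a).2 hr, (sig_tau r b).2 hr, (sig_tau r c).2 hr, (sig_tau r d).2 hr] at this
      omega
  have k2 : ∀ r : ℕ, b < 7 * r + 2 → d < 7 * r + 2 → (RunE r a c ∨ RunE r c a) →
      ¬ (sig a < sig b ∧ sig b < sig c ∧ sig c < sig d) := by
    intro r hb hd hac
    rcases Nat.mod_two_eq_zero_or_one r with hr | hr
    · have := (out_old r hb hd hac).2
      rw [(sig_tau r a).1 hr, (sig_tau r b).1 hr, (sig_tau r c).1 hr, (sig_tau r d).1 hr] at this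
      exact this
    · have := (out_old r hd hb hac.symm).1
      rw [(sig_tau r a).2 hr, (sig_tau r b).2 hr, (sig_tau r c).2 hr, (sig_tau r d).2 hr] at this
      omega
  rcases tag h with t1 | ⟨r, t1⟩ <;> rcases tag h' with t2 | ⟨r', t2⟩
  · have s0 : sig 0 = 0 := by simp [sig]
    have s1 : sig 1 = 1 := by simp [sig]
    rcases t1 with ⟨rfl, rfl⟩ | ⟨rfl, rfl⟩ <;> rcases t2 with ⟨rfl, rfl⟩ | ⟨rfl, rfl⟩ <;>
      rw [s0, s1] <;> omega
  · exact k1 r' (by omega) (by omega) t2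
  · exact k2 r (by omega) (by omega) t1
  · rcases lt_trichotomy r r' with c0 | c0 | c0
    · obtain ⟨q1, q2⟩ := lts t1
      exact k1 r' (by omega) (by omega) t2
    · subst c0
      rcases Nat.mod_two_eq_zero_or_one r with hr | hr
      · have := out_same r t1 t2
        rw [(sig_tau r a).1 hr, (sig_tau r b).1 hr, (sig_tau r c).1 hr, (sig_tau r d).1 hr] at this
        exact this
      · have := out_same r t2.symm t1.symm
        rw [(sig_tau r a).2 hr, (sig_tau r b).2 hr, (sig_tau r c).2 hr, (sig_tau r d).2 hr] at this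
        omega
    · obtain ⟨q1, q2⟩ := lts t2
      exact k2 r (by omega) (by omega) t1

theorem sig_inj : Function.Injective sig := by
  intro u v h
  unfold sig at h
  split_ifs at h <;> omega

/-- the graph on the first `n` vertices -/
def Gn (n : ℕ) : OuterDAG n where
  Adj u v := AdjN u.val v.val
  acyclic := by
    intro u h
    have key : ∀ x y : Fin n, Relation.TransGen (fun u v : Fin n => AdjN u.val v.val) x y →
        (P x.val).2 < (P y.val).2 := by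
      intro x y hxy
      induction hxy with
      | single h => exact adjN_up h
      | tail _ h ih => exact ih.trans (adjN_up h)
    exact lt_irrefl _ (key u u h)
  outerplanar := by
    refine ⟨fun v => sig v.val, fun u v h => Fin.ext (sig_inj h), ?_⟩
    intro a b c d hac hbd
    apply outer_all
    · rcases hac with h | h
      · exact adjN_UE h
      · exact (adjN_UE h).symm
    · rcases hbd with h | h
      · exact adjN_UE h
      · exact (adjN_UE h).symm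

theorem nc_adj {u v u' v' : ℕ} (h : AdjN u v) (h' : AdjN u' v') (hne : ¬ (u = u' ∧ v = v')) :
    NCP (toPlane (P u)) (toPlane (P v)) (toPlane (P u')) (toPlane (P v')) := by
  have hup := adjN_up h
  have hup' := adjN_up h'
  rcases adjN_UE h with g | g <;> rcases adjN_UE h' with g' | g'
  · exact nc_all g g' hne
  · exact (nc_all g g' (by rintro ⟨rfl, rfl⟩; omega)).swapR
  · exact (nc_all g g' (by rintro ⟨rfl, rfl⟩; omega)).swapL
  · exact (nc_all g g' (by rintro ⟨rfl, rfl⟩; exact hne ⟨rfl, rfl⟩)).swapL.swapR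

theorem free_adj {u v w : ℕ} (h : AdjN u v)
    (hw : toPlane (P w) ∈ segment ℝ (toPlane (P u)) (toPlane (P v))) : w = u ∨ w = v := by
  rcases adjN_UE h with g | g
  · exact free_all g hw
  · rw [segment_symm] at hw
    exact (free_all g hw).symm

def gnDrawing (n : ℕ) : UpwardDrawing (Gn n) where
  pos v := P v.val
  pos_inj u v h := Fin.ext (P_inj h)
  upward u v h := adjN_up h
  noncrossing := by
    intro u v u' v' h h' hne z hz hz'
    have hne' : ¬ (u.val = u'.val ∧ v.val = v'.val) := by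
      rintro ⟨e1, e2⟩
      exact hne (by rw [Fin.ext e1, Fin.ext e2])
    obtain ⟨a, b⟩ := nc_adj h h' hne' z hz hz'
    rcases a with a | a <;> rcases b with b | b
    · exact ⟨u, Or.inl rfl, Or.inl (Fin.ext (P_inj (toPlane_inj (a.symm.trans b)))), a⟩
    · exact ⟨u, Or.inl rfl, Or.inr (Fin.ext (P_inj (toPlane_inj (a.symm.trans b)))), a⟩
    · exact ⟨v, Or.inr rfl, Or.inl (Fin.ext (P_inj (toPlane_inj (a.symm.trans b)))), a⟩
    · exact ⟨v, Or.inr rfl, Or.inr (Fin.ext (P_inj (toPlane_inj (a.symm.trans b)))), a⟩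
  vertex_free := by
    intro u v w h hw
    exact (free_adj h hw).imp Fin.ext Fin.ext

/-! ### Lower bound for every drawing -/

def Good (S : Sys) (r : ℕ) : Prop := (r % 2 = 0 → BR S.E r) ∧ (r % 2 = 1 → BR S.flipY.E r)

theorem step' (S : Sys) (r : ℕ) (h : Good S r) (h' : Good S (r + 1)) :
    0 < DD S.Y r ∧ 0 < DD S.Y (r + 1) ∧ DD S.Y r ≤ HH S.Y r ∧
    WW S.X S.Y r * HH S.Y r ≤ WW S.X S.Y (r + 1) * DD S.Y r ∧
    DD S.Y (r + 1) + HH S.Y r ≤ HH S.Y (r + 1) := by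
  rcases Nat.mod_two_eq_zero_or_one r with hr | hr
  · exact step S r (h.1 hr) (h'.2 (by omega))
  · have := step S.flipY r (h.2 hr) (h'.1 (by omega))
    have e1 : ∀ s, WW S.flipY.X S.flipY.Y s = WW S.X S.Y s := fun s => WW_flip S.X S.Y s
    have e2 : ∀ s, DD S.flipY.Y s = DD S.Y s := fun s => DD_flip S.Y s
    have e3 : ∀ s, HH S.flipY.Y s = HH S.Y s := fun s => HH_flip S.Y s
    rw [e1, e1, e2, e2, e3, e3] at this
    exact this

theorem chain (S : Sys) (K : ℕ) (hG : ∀ r ≤ K + 1, Good S r) :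
    4 ^ K * (WW S.X S.Y 1 * HH S.Y 0) ≤ WW S.X S.Y (K + 1) * HH S.Y K := by
  induction K with
  | zero => simp
  | succ K ih =>
    have ih' := ih (fun r hr => hG r (by omega))
    obtain ⟨-, -, -, -, a⟩ := step' S K (hG K (by omega)) (hG (K + 1) (by omega))
    obtain ⟨d, -, -, b, -⟩ := step' S (K + 1) (hG (K + 1) (by omega)) (hG (K + 1 + 1) (by omega))
    have w0 : 0 ≤ WW S.X S.Y (K + 1) := abs_nonneg _
    have w1 : 0 ≤ WW S.X S.Y (K + 1 + 1) := abs_nonneg _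
    have h0 : 0 ≤ HH S.Y K := abs_nonneg _
    have h1 : 0 ≤ HH S.Y (K + 1) := abs_nonneg _
    generalize WW S.X S.Y (K + 1) = w at *
    generalize WW S.X S.Y (K + 1 + 1) = w' at *
    generalize HH S.Y K = p at *
    generalize HH S.Y (K + 1) = q at *
    generalize DD S.Y (K + 1) = t at *
    -- w q ≤ w' t, t + p ≤ q
    have key : 4 * (w * p) ≤ w' * q := by
      have e1 : 4 * (w * p) * t ≤ (w * q) * q := by
        have : 4 * p * t ≤ q * q := by nlinarith [sq_nonneg (p - t)]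
        nlinarith
      have e2 : (w * q) * q ≤ (w' * t) * q := mul_le_mul_of_nonneg_right b h1
      have e3 : 4 * (w * p) * t ≤ (w' * q) * t := by nlinarith
      exact le_of_mul_le_mul_right e3 d
    calc 4 ^ (K + 1) * (WW S.X S.Y 1 * HH S.Y 0)
        = 4 * (4 ^ K * (WW S.X S.Y 1 * HH S.Y 0)) := by ring
      _ ≤ 4 * (w * p) := by linarith
      _ ≤ _ := key

section drawing

variable {n : ℕ} (D : UpwardDrawing (Gn n))

noncomputable def DX (k : ℕ) : ℝ := if h : k < n then ((D.pos ⟨k, h⟩).1 : ℝ) else 0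
noncomputable def DY (k : ℕ) : ℝ := if h : k < n then ((D.pos ⟨k, h⟩).2 : ℝ) else 0

noncomputable def lineF (X Y : ℕ → ℝ) (u v : ℕ) (y : ℝ) : ℝ :=
  X u + (X v - X u) * ((y - Y u) / (Y v - Y u))

def DE (n : ℕ) (u v : ℕ) : Prop := u < n ∧ v < n ∧ AdjN u v

theorem D_lt {u v : ℕ} (h : DE n u v) : DY D u < DY D v := by
  obtain ⟨hu, hv, h⟩ := h
  have := D.upward ⟨u, hu⟩ ⟨v, hv⟩ h
  unfold DY
  rw [dif_pos hu, dif_pos hv]
  exact_mod_cast this

theorem D_pt {u : ℕ} (hu : u < n) : toPlane (D.pos ⟨u, hu⟩) = (DX D u, DY D u) := by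
  unfold DX DY toPlane
  rw [dif_pos hu, dif_pos hu]

theorem D_mem {u v : ℕ} (h : DE n u v) (y : ℝ) (h1 : DY D u ≤ y) (h2 : y ≤ DY D v) :
    (lineF (DX D) (DY D) u v y, y) ∈
      segment ℝ (toPlane (D.pos ⟨u, h.1⟩)) (toPlane (D.pos ⟨v, h.2.1⟩)) := by
  have hlt := D_lt D h
  rw [D_pt, D_pt, segment_eq_image]
  have hd : 0 < DY D v - DY D u := by linarith
  refine ⟨(y - DY D u) / (DY D v - DY D u), ⟨div_nonneg (by linarith) hd.le,
    (div_le_one hd).mpr (by linarith)⟩, ?_⟩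
  unfold lineF
  ext
  · simp; ring
  · simp; field_simp; ring

theorem D_ne {u v u' v' : ℕ} (h : DE n u v) (h' : DE n u' v') (a : u ≠ u') (b : u ≠ v')
    (c : v ≠ u') (d : v ≠ v') (y : ℝ) (h1 : DY D u ≤ y) (h2 : y ≤ DY D v)
    (h3 : DY D u' ≤ y) (h4 : y ≤ DY D v') :
    lineF (DX D) (DY D) u v y ≠ lineF (DX D) (DY D) u' v' y := by
  intro he
  have m1 := D_mem D h y h1 h2
  have m2 := D_mem D h' y h3 h4
  rw [← he] at m2
  obtain ⟨w, hw1, hw2, -⟩ := D.noncrossing ⟨u, h.1⟩ ⟨v, h.2.1⟩ ⟨u', h'.1⟩ ⟨v', h'.2.1⟩ h.2.2 h'.2.2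
    (by
      intro e
      simp only [Prod.mk.injEq, Fin.mk.injEq] at e
      exact a e.1) _ m1 m2
  rcases hw1 with e | e <;> rcases hw2 with e' | e' <;>
    · have := congrArg Fin.val (e.symm.trans e')
      simp only at this
      omega

noncomputable def sysOf : Sys where
  X := DX D
  Y := DY D
  E := DE n
  F := lineF (DX D) (DY D)
  lt u v h := D_lt D h
  bot u v h := by unfold lineF; simp
  top u v h := by
    have := D_lt D h
    have h2 : DY D v - DY D u ≠ 0 := by intro h0; linarith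
    unfold lineF
    rw [div_self h2]; ring
  ord u v u' v' h h' a b c d y z e1 e2 e3 e4 f1 f2 f3 f4 hlt := by
    by_contra hcon
    push Not at hcon
    have hcont : ∀ p q : ℕ, Continuous (lineF (DX D) (DY D) p q) := by
      intro p q; unfold lineF; fun_prop
    have hcont' : ContinuousOn (fun t => lineF (DX D) (DY D) u v t -
        lineF (DX D) (DY D) u' v' t) (Set.uIcc y z) :=
      ((hcont u v).sub (hcont u' v')).continuousOn
    have := intermediate_value_uIcc hcont'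
    have h0 : (0 : ℝ) ∈ Set.uIcc (lineF (DX D) (DY D) u v y - lineF (DX D) (DY D) u' v' y)
        (lineF (DX D) (DY D) u v z - lineF (DX D) (DY D) u' v' z) := by
      rw [Set.mem_uIcc]; left; constructor <;> linarith
    obtain ⟨t, ht, ht'⟩ := this h0
    rw [Set.mem_uIcc] at ht
    have heq : lineF (DX D) (DY D) u v t = lineF (DX D) (DY D) u' v' t := by
      have : lineF (DX D) (DY D) u v t - lineF (DX D) (DY D) u' v' t = 0 := ht'
      linarith
    refine D_ne D h h' a b c d t ?_ ?_ ?_ ?_ heq <;> rcases ht with ht | ht <;>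
      linarith [ht.1, ht.2]
  ne u v u' v' h h' a b c d y e1 e2 e3 e4 := D_ne D h h' a b c d y e1 e2 e3 e4
  aff u v _ y := rfl

theorem good_sysOf (r : ℕ) (hr : 7 * r + 8 < n) : Good (sysOf D) r := by
  have hlt : ∀ {u v : ℕ}, RunE r u v → u < n ∧ v < n := by
    intro u v h
    obtain ⟨q1, q2, -⟩ := runE_lt h
    omega
  have hprev : r ≠ 0 → RunE (r - 1) (7 * r + 1) (7 * r - 6) := by
    intro h0
    exact Or.inr (Or.inr (Or.inr (Or.inr (Or.inr (Or.inl ⟨by omega, by omega⟩)))))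
  constructor
  · intro hpar
    refine ⟨fun u v h => ⟨(hlt h).1, (hlt h).2, Or.inr (Or.inl ⟨r, hpar, h⟩)⟩, ?_⟩
    refine ⟨by omega, by omega, ?_⟩
    by_cases h0 : r = 0
    · subst h0; exact Or.inl ⟨rfl, rfl⟩
    · exact Or.inr (Or.inr ⟨r - 1, by omega, hprev h0⟩)
  · intro hpar
    refine ⟨fun u v h => ⟨(hlt h).2, (hlt h).1, Or.inr (Or.inr ⟨r, hpar, h⟩)⟩, ?_⟩
    refine ⟨by omega, by omega, ?_⟩
    exact Or.inr (Or.inl ⟨r - 1, by omega, hprev (by omega)⟩)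

/-- twice the area of the first triangle is a positive integer -/
theorem base (h : 15 < n) : 1 ≤ WW (DX D) (DY D) 1 * HH (DY D) 0 := by
  have g0 := good_sysOf D 0 (by omega)
  have g1 := good_sysOf D 1 (by omega)
  obtain ⟨d0, -, dh, ww, -⟩ := step' (sysOf D) 0 g0 g1
  have hBR := g0.1 rfl
  obtain ⟨b1, b2⟩ := hBR
  change 0 < DD (DY D) 0 at d0
  change DD (DY D) 0 ≤ HH (DY D) 0 at dh
  change WW (DX D) (DY D) 0 * HH (DY D) 0 ≤ WW (DX D) (DY D) 1 * DD (DY D) 0 at ww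
  have e31 : DE n 3 1 := b1 3 1 (by simp [RunE])
  have e71 : DE n 7 1 := b1 7 1 (by simp [RunE])
  have e73 : DE n 7 3 := b1 7 3 (by simp [RunE])
  have e87 : DE n 8 7 := b1 8 7 (by simp [RunE])
  have e53 : DE n 5 3 := b1 5 3 (by simp [RunE])
  have l1 := D_lt D e31
  have l2 := D_lt D e73
  have l3 := D_lt D e87
  have l4 := D_lt D e53
  -- vertex 3 is not on the line through 7 and 1
  have hne := D_ne D e71 e53 (by norm_num) (by norm_num) (by norm_num) (by norm_num) (DY D 3)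
    (by linarith) (by linarith) (by linarith) (by linarith)
  have htop : lineF (DX D) (DY D) 5 3 (DY D 3) = DX D 3 := (sysOf D).top 5 3 e53
  rw [htop] at hne
  have hpos : 0 < DY D 1 - DY D 7 := by linarith
  -- integrality
  have hint : ∃ z : ℤ, (z : ℝ) = (DX D 3 - DX D 7) * (DY D 1 - DY D 7) -
      (DX D 1 - DX D 7) * (DY D 3 - DY D 7) := by
    refine ⟨((D.pos ⟨3, by omega⟩).1 - (D.pos ⟨7, by omega⟩).1) *
      ((D.pos ⟨1, by omega⟩).2 - (D.pos ⟨7, by omega⟩).2) -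
      ((D.pos ⟨1, by omega⟩).1 - (D.pos ⟨7, by omega⟩).1) *
      ((D.pos ⟨3, by omega⟩).2 - (D.pos ⟨7, by omega⟩).2), ?_⟩
    unfold DX DY
    rw [dif_pos (show 3 < n by omega), dif_pos (show 7 < n by omega),
      dif_pos (show 1 < n by omega), dif_pos (show 3 < n by omega),
      dif_pos (show 7 < n by omega), dif_pos (show 1 < n by omega)]
    push_cast
    ring
  obtain ⟨z, hz⟩ := hint
  have hzz : (z : ℝ) = (DX D 3 - lineF (DX D) (DY D) 7 1 (DY D 3)) * (DY D 1 - DY D 7) := by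
    rw [hz]; unfold lineF; field_simp; ring
  have hz0 : z ≠ 0 := by
    intro h0
    rw [h0, Int.cast_zero] at hzz
    have : (DX D 3 - lineF (DX D) (DY D) 7 1 (DY D 3)) = 0 := by
      rcases mul_eq_zero.mp hzz.symm with h | h
      · exact h
      · exfalso; linarith
    exact hne (by linarith)
  have hz1 : (1 : ℝ) ≤ |(z : ℝ)| := by
    have : (1 : ℤ) ≤ |z| := Int.one_le_abs hz0
    exact_mod_cast this
  have hW0 : WW (DX D) (DY D) 0 = |DX D 3 - lineF (DX D) (DY D) 7 1 (DY D 3)| := rfl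
  have hH0 : HH (DY D) 0 = DY D 1 - DY D 8 := by
    have : HH (DY D) 0 = |DY D 1 - DY D 8| := rfl
    rw [this, abs_of_pos]; linarith
  have q1 : 1 ≤ WW (DX D) (DY D) 0 * (DY D 1 - DY D 7) := by
    rw [hW0, ← abs_of_pos hpos, ← abs_mul, ← hzz]
    exact hz1
  have w0 : 0 ≤ WW (DX D) (DY D) 0 := abs_nonneg _
  have w1 : 0 ≤ WW (DX D) (DY D) 1 := abs_nonneg _
  calc (1 : ℝ) ≤ WW (DX D) (DY D) 0 * (DY D 1 - DY D 7) := q1
    _ ≤ WW (DX D) (DY D) 0 * HH (DY D) 0 := by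
        rw [hH0]; exact mul_le_mul_of_nonneg_left (by linarith) w0
    _ ≤ WW (DX D) (DY D) 1 * DD (DY D) 0 := ww
    _ ≤ _ := mul_le_mul_of_nonneg_left dh w1

theorem box_bound (K : ℕ) (hK : 7 * (K + 1) + 8 < n) (x₀ y₀ : ℤ) (W H : ℕ)
    (hB : D.InBox x₀ y₀ W H) : 4 ^ K ≤ W * H := by
  have hc := chain (sysOf D) K (fun r hr => good_sysOf D r (by omega))
  change 4 ^ K * (WW (DX D) (DY D) 1 * HH (DY D) 0) ≤ WW (DX D) (DY D) (K + 1) * HH (DY D) K at hc
  have hb := base D (by omega)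
  have bX : ∀ u, u < n → (x₀ : ℝ) ≤ DX D u ∧ DX D u ≤ x₀ + W := by
    intro u hu
    unfold DX
    rw [dif_pos hu]
    have := hB ⟨u, hu⟩
    constructor
    · exact_mod_cast this.1
    · exact_mod_cast this.2.1
  have bY : ∀ u, u < n → (y₀ : ℝ) ≤ DY D u ∧ DY D u ≤ y₀ + H := by
    intro u hu
    unfold DY
    rw [dif_pos hu]
    have := hB ⟨u, hu⟩
    constructor
    · exact_mod_cast this.2.2.1
    · exact_mod_cast this.2.2.2
  have hH : HH (DY D) K ≤ H := by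
    unfold HH
    have h1 := bY (7 * K + 1) (by omega)
    have h2 := bY (7 * K + 8) (by omega)
    rw [abs_le]; constructor <;> linarith [h1.1, h1.2, h2.1, h2.2]
  have hW : WW (DX D) (DY D) (K + 1) ≤ W := by
    have g := good_sysOf D (K + 1) (by omega)
    have hrat : 0 ≤ ((DY D (7 * (K + 1) + 3) - DY D (7 * (K + 1) + 7)) /
        (DY D (7 * (K + 1) + 1) - DY D (7 * (K + 1) + 7))) ∧
        ((DY D (7 * (K + 1) + 3) - DY D (7 * (K + 1) + 7)) /
        (DY D (7 * (K + 1) + 1) - DY D (7 * (K + 1) + 7))) ≤ 1 := by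
      rcases Nat.mod_two_eq_zero_or_one (K + 1) with hr | hr
      · obtain ⟨b1, -⟩ := g.1 hr
        have l1 : DY D (7 * (K + 1) + 3) < DY D (7 * (K + 1) + 1) :=
          D_lt D (b1 _ _ (by simp [RunE]))
        have l2 : DY D (7 * (K + 1) + 7) < DY D (7 * (K + 1) + 3) :=
          D_lt D (b1 _ _ (by simp [RunE]))
        have hd : 0 < DY D (7 * (K + 1) + 1) - DY D (7 * (K + 1) + 7) := by linarith
        exact ⟨div_nonneg (by linarith) hd.le, (div_le_one hd).mpr (by linarith)⟩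
      · obtain ⟨b1, -⟩ := g.2 hr
        have l1 : DY D (7 * (K + 1) + 1) < DY D (7 * (K + 1) + 3) :=
          D_lt D (b1 (7 * (K + 1) + 3) (7 * (K + 1) + 1) (by simp [RunE]))
        have l2 : DY D (7 * (K + 1) + 3) < DY D (7 * (K + 1) + 7) :=
          D_lt D (b1 (7 * (K + 1) + 7) (7 * (K + 1) + 3) (by simp [RunE]))
        have hd : DY D (7 * (K + 1) + 1) - DY D (7 * (K + 1) + 7) < 0 := by linarith
        exact ⟨div_nonneg_of_nonpos (by linarith) hd.le,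
          (div_le_one_of_neg hd).mpr (by linarith)⟩
    unfold WW
    have h1 := bX (7 * (K + 1) + 3) (by omega)
    have h2 := bX (7 * (K + 1) + 7) (by omega)
    have h3 := bX (7 * (K + 1) + 1) (by omega)
    generalize ((DY D (7 * (K + 1) + 3) - DY D (7 * (K + 1) + 7)) /
        (DY D (7 * (K + 1) + 1) - DY D (7 * (K + 1) + 7))) = l at hrat
    obtain ⟨l0, l1⟩ := hrat
    have hW0 : (0 : ℝ) ≤ W := Nat.cast_nonneg W
    rw [abs_le]
    constructor <;> nlinarith [h1.1, h1.2, h2.1, h2.2, h3.1, h3.2]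
  have w1 : 0 ≤ WW (DX D) (DY D) (K + 1) := abs_nonneg _
  have h1 : 0 ≤ HH (DY D) K := abs_nonneg _
  have hfin : (4 : ℝ) ^ K ≤ (W : ℝ) * H := by
    calc (4 : ℝ) ^ K = 4 ^ K * 1 := by ring
      _ ≤ 4 ^ K * (WW (DX D) (DY D) 1 * HH (DY D) 0) :=
          mul_le_mul_of_nonneg_left hb (by positivity)
      _ ≤ WW (DX D) (DY D) (K + 1) * HH (DY D) K := hc
      _ ≤ (W : ℝ) * H := mul_le_mul hW hH h1 (by positivity)
  exact_mod_cast hfin

end drawing

/-! ### Conclusion -/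

theorem exists_box {n : ℕ} {G : OuterDAG n} (D : UpwardDrawing G) :
    ∃ (x₀ y₀ : ℤ) (W H : ℕ), D.InBox x₀ y₀ W H := by
  classical
  set M : ℕ := (Finset.univ.image D.pos).sup (fun p => p.1.natAbs + p.2.natAbs) with hM
  have key : ∀ p ∈ Finset.univ.image D.pos, p.1.natAbs + p.2.natAbs ≤ M := fun p hp =>
    Finset.le_sup (f := fun p : ℤ × ℤ => p.1.natAbs + p.2.natAbs) hp
  refine ⟨-M, -M, 2 * M, 2 * M, ?_⟩
  intro v
  have := key _ (Finset.mem_image_of_mem _ (Finset.mem_univ v))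
  push_cast
  omega

theorem area_bound (n K : ℕ) (hK : 7 * (K + 1) + 8 < n) (D : UpwardDrawing (Gn n)) :
    4 ^ K ≤ D.area := by
  have hne : {a | ∃ (x₀ y₀ : ℤ) (W H : ℕ), D.InBox x₀ y₀ W H ∧ a = W * H}.Nonempty := by
    obtain ⟨x₀, y₀, W, H, h⟩ := exists_box D
    exact ⟨W * H, x₀, y₀, W, H, h, rfl⟩
  obtain ⟨x₀, y₀, W, H, hB, he⟩ := Nat.sInf_mem hne
  have he' : D.area = W * H := he
  rw [he']
  exact box_bound D K hK x₀ y₀ W H hB

instance (n : ℕ) : Finite (OuterDAG n) := by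
  apply Finite.of_injective (fun G : OuterDAG n => G.Adj)
  rintro ⟨A, h, h'⟩ ⟨A', g, g'⟩ e
  simp only at e
  subst e
  rfl

theorem bddAbove_set (n : ℕ) :
    BddAbove {a | ∃ G : OuterDAG n, Nonempty (UpwardDrawing G) ∧ a = minArea G} := by
  apply Set.Finite.bddAbove
  apply Set.Finite.subset (Set.finite_range (fun G : OuterDAG n => minArea G))
  rintro a ⟨G, -, rfl⟩
  exact ⟨G, rfl⟩

/-- The maximum over `n`-vertex directed outerplanar graphs of the minimum area of a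
straight-line upward planar grid drawing grows at least exponentially in `n`. -/
theorem result : ∃ b c : ℝ, 1 < b ∧ 0 < c ∧ ∃ N : ℕ, ∀ n : ℕ, N ≤ n →
    c * b ^ n ≤ (A n : ℝ) := by
  refine ⟨6 / 5, (5 / 6) ^ 22, by norm_num, by positivity, 16, fun n hn => ?_⟩
  obtain ⟨K, hK1, hK2⟩ : ∃ K : ℕ, 7 * (K + 1) + 8 < n ∧ n ≤ 7 * K + 22 :=
    ⟨(n - 16) / 7, by omega, by omega⟩
  have h1 : minArea (Gn n) ≤ A n := le_csSup (bddAbove_set n) ⟨Gn n, ⟨gnDrawing n⟩, rfl⟩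
  have h2 : 4 ^ K ≤ minArea (Gn n) := by
    have hne : {a | ∃ D : UpwardDrawing (Gn n), a = D.area}.Nonempty := ⟨_, gnDrawing n, rfl⟩
    obtain ⟨D, hD⟩ := Nat.sInf_mem hne
    have hD' : minArea (Gn n) = D.area := hD
    rw [hD']
    exact area_bound n K hK1 D
  have h3 : ((4 ^ K : ℕ) : ℝ) ≤ (A n : ℝ) := by exact_mod_cast h2.trans h1
  have h4 : ((6 : ℝ) / 5) ^ n ≤ (6 / 5) ^ (7 * K + 22) := pow_le_pow_right₀ (by norm_num) hK2
  have h5 : ((6 : ℝ) / 5) ^ (7 * K + 22) = ((6 / 5) ^ 7) ^ K * (6 / 5) ^ 22 := by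
    rw [pow_add, pow_mul]
  have h6 : (((6 : ℝ) / 5) ^ 7) ^ K ≤ 4 ^ K := by
    apply pow_le_pow_left₀ (by positivity)
    norm_num
  have h7 : ((5 : ℝ) / 6) ^ 22 * (6 / 5) ^ 22 = 1 := by
    rw [← mul_pow]; norm_num
  push_cast at h3
  calc ((5 : ℝ) / 6) ^ 22 * (6 / 5) ^ n
      ≤ (5 / 6) ^ 22 * ((((6 : ℝ) / 5) ^ 7) ^ K * (6 / 5) ^ 22) := by
        rw [← h5]; exact mul_le_mul_of_nonneg_left h4 (by positivity)
    _ = (((6 : ℝ) / 5) ^ 7) ^ K * ((5 / 6) ^ 22 * (6 / 5) ^ 22) := by ring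
    _ = (((6 : ℝ) / 5) ^ 7) ^ K := by rw [h7, mul_one]
    _ ≤ 4 ^ K := h6
    _ ≤ _ := h3

end Pool.Agent.Results.MP_5a9264_co.ExponentialArea
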